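import Pool.Agent.H.MP_db48a2_an.Bk.Defs

/-!
# Counting lemmas for multisets
-/

namespace PoolBerk

open Polynomial Metric

variable {K : Type*}

theorem CntA_zero (S : Set K) : cnt (0 : Multiset K) S = 0 := by
  classical
  unfold cnt
  rw [Multiset.countP_zero]

theorem CntA_cons_of_mem {S : Set K} {x : K} (F : Multiset K) (h : x ∈ S) :
    cnt (x ::ₘ F) S = cnt F S + 1 := by
  classical
  unfold cnt
  rw [Multiset.countP_cons_of_pos _ h]

theorem CntA_cons_of_notMem {S : Set K} {x : K} (F : Multiset K) (h : x ∉ S) :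
    cnt (x ::ₘ F) S = cnt F S := by
  classical
  unfold cnt
  rw [Multiset.countP_cons_of_neg _ h]

theorem cnt_mono (F : Multiset K) {S T : Set K} (h : S ⊆ T) : cnt F S ≤ cnt F T := by
  induction F using Multiset.induction_on with
  | empty => rw [CntA_zero, CntA_zero]
  | cons x F ih =>
    by_cases hS : x ∈ S
    · rw [CntA_cons_of_mem F hS, CntA_cons_of_mem F (h hS)]
      omega
    · rw [CntA_cons_of_notMem F hS]
      by_cases hT : x ∈ T
      · rw [CntA_cons_of_mem F hT]
        omega
      · rw [CntA_cons_of_notMem F hT]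
        exact ih

theorem cnt_le_card (F : Multiset K) (S : Set K) : cnt F S ≤ Multiset.card F := by
  classical
  unfold cnt
  exact Multiset.countP_le_card _ _

theorem cnt_univ (F : Multiset K) : cnt F Set.univ = Multiset.card F := by
  induction F using Multiset.induction_on with
  | empty => rw [CntA_zero, Multiset.card_zero]
  | cons x F ih => rw [CntA_cons_of_mem F (Set.mem_univ x), Multiset.card_cons, ih]

theorem cnt_zero (S : Set K) : cnt (0 : Multiset K) S = 0 := CntA_zero S

theorem cnt_add (F G : Multiset K) (S : Set K) : cnt (F + G) S = cnt F S + cnt G S := by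
  classical
  unfold cnt
  exact Multiset.countP_add _ _ _

theorem cnt_nsmul (n : ℕ) (F : Multiset K) (S : Set K) : cnt (n • F) S = n * cnt F S := by
  induction n with
  | zero => rw [zero_smul, cnt_zero, zero_mul]
  | succ n ih => rw [succ_nsmul, cnt_add, ih, Nat.succ_mul]

theorem cnt_union (F : Multiset K) {S T : Set K} (h : Disjoint S T) :
    cnt F (S ∪ T) = cnt F S + cnt F T := by
  induction F using Multiset.induction_on with
  | empty => rw [cnt_zero, cnt_zero, cnt_zero]
  | cons x F ih =>
    by_cases hS : x ∈ S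
    · have hT : x ∉ T := Set.disjoint_left.1 h hS
      rw [CntA_cons_of_mem F (Set.mem_union_left T hS), CntA_cons_of_mem F hS,
        CntA_cons_of_notMem F hT, ih]
      omega
    · by_cases hT : x ∈ T
      · rw [CntA_cons_of_mem F (Set.mem_union_right S hT), CntA_cons_of_notMem F hS,
          CntA_cons_of_mem F hT, ih]
        omega
      · have hST : x ∉ S ∪ T := fun h1 => h1.elim hS hT
        rw [CntA_cons_of_notMem F hST, CntA_cons_of_notMem F hS, CntA_cons_of_notMem F hT, ih]

theorem cnt_le_of_le {F G : Multiset K} (h : F ≤ G) (S : Set K) : cnt F S ≤ cnt G S := by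
  classical
  unfold cnt
  exact Multiset.countP_le_of_le _ h

/-- Subadditivity over pairwise disjoint subsets. -/
theorem cnt_sum_le (F : Multiset K) (T : Finset (Set K)) (X : Set K)
    (hd : ((T : Set (Set K))).PairwiseDisjoint id) (hX : ∀ B ∈ T, B ⊆ X) :
    ∑ B ∈ T, cnt F B ≤ cnt F X := by
  classical
  induction F using Multiset.induction_on with
  | empty =>
    simp only [cnt_zero, Finset.sum_const_zero, le_refl]
  | cons x F ih =>
    by_cases hx : ∃ B ∈ T, x ∈ B
    · obtain ⟨B, hB, hxB⟩ := hx
      have h1 : ∀ B' ∈ T.erase B, cnt (x ::ₘ F) B' = cnt F B' := by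
        intro B' hB'
        apply CntA_cons_of_notMem
        intro hxB'
        have hne : B ≠ B' := fun e => (Finset.mem_erase.1 hB').1 e.symm
        exact Set.disjoint_left.1 (hd hB (Finset.mem_of_mem_erase hB') hne) hxB hxB'
      have e : ∑ B' ∈ T.erase B, cnt (x ::ₘ F) B' = ∑ B' ∈ T.erase B, cnt F B' :=
        Finset.sum_congr rfl h1
      rw [← Finset.add_sum_erase T _ hB, e, CntA_cons_of_mem F hxB,
        CntA_cons_of_mem F (hX B hB hxB)]
      rw [← Finset.add_sum_erase T _ hB] at ih
      omega
    · have h1 : ∀ B' ∈ T, cnt (x ::ₘ F) B' = cnt F B' := by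
        intro B' hB'
        apply CntA_cons_of_notMem
        intro hxB'
        exact hx ⟨B', hB', hxB'⟩
      have e : ∑ B' ∈ T, cnt (x ::ₘ F) B' = ∑ B' ∈ T, cnt F B' := Finset.sum_congr rfl h1
      rw [e]
      by_cases hxX : x ∈ X
      · rw [CntA_cons_of_mem F hxX]
        omega
      · rw [CntA_cons_of_notMem F hxX]
        exact ih

theorem cnt_bind (F : Multiset K) (f : K → Multiset K) (S : Set K) :
    cnt (F.bind f) S = (F.map (fun z => cnt (f z) S)).sum := by
  induction F using Multiset.induction_on with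
  | empty => rw [Multiset.zero_bind, cnt_zero, Multiset.map_zero, Multiset.sum_zero]
  | cons x F ih => rw [Multiset.cons_bind, cnt_add, ih, Multiset.map_cons, Multiset.sum_cons]

theorem cnt_eq_zero_iff (F : Multiset K) (S : Set K) : cnt F S = 0 ↔ ∀ x ∈ F, x ∉ S := by
  classical
  unfold cnt
  exact Multiset.countP_eq_zero

theorem cnt_pos_iff (F : Multiset K) (S : Set K) : 0 < cnt F S ↔ ∃ x ∈ F, x ∈ S := by
  classical
  unfold cnt
  exact Multiset.countP_pos

theorem cnt_indicator (F : Multiset K) (S : Set K) (f : K → ℕ) (h1 : ∀ x ∈ S, f x = 1)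
    (h0 : ∀ x, x ∉ S → f x = 0) : (F.map f).sum = cnt F S := by
  induction F using Multiset.induction_on with
  | empty => rw [Multiset.map_zero, Multiset.sum_zero, cnt_zero]
  | cons x F ih =>
    rw [Multiset.map_cons, Multiset.sum_cons, ih]
    by_cases hS : x ∈ S
    · rw [h1 x hS, CntA_cons_of_mem F hS, add_comm]
    · rw [h0 x hS, CntA_cons_of_notMem F hS, zero_add]

end PoolBerk
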