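import Pool.Agent.H.MP_db48a2_an.Bk.ValA

/-!
# Classification of points with large residue field
-/

namespace PoolBerk

open Polynomial Metric

open scoped NNReal

variable {K : Type*} [NontriviallyNormedField K] [IsUltrametricDist K]

variable {v : Valuation (RatFunc K) ℝ≥0}

/-- `F` is congruent to `g`. -/
def ValB_near (v : Valuation (RatFunc K) ℝ≥0) (F g : RatFunc K) : Prop := v (F - g) < v g

theorem ValB_near.val {F g : RatFunc K} (h : ValB_near v F g) : v F = v g := by
  have h1 : F = (F - g) + g := by ring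
  rw [h1]
  exact v.map_add_eq_of_lt_right h

theorem ValB_near.pos {F g : RatFunc K} (h : ValB_near v F g) : 0 < v g :=
  lt_of_le_of_lt zero_le h

theorem ValB_near.ne {F g : RatFunc K} (h : ValB_near v F g) : F ≠ 0 := by
  rintro rfl
  have h1 := h.val
  rw [map_zero] at h1
  exact h.pos.ne h1

theorem ValB_near.ne' {F g : RatFunc K} (h : ValB_near v F g) : g ≠ 0 := by
  rintro rfl
  have h1 := h.pos
  rw [map_zero] at h1
  exact lt_irrefl _ h1

theorem ValB_near.mul {F g F' g' : RatFunc K} (h : ValB_near v F g) (h' : ValB_near v F' g') :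
    ValB_near v (F * F') (g * g') := by
  unfold ValB_near
  have h1 : F * F' - g * g' = F * (F' - g') + g' * (F - g) := by ring
  rw [h1, map_mul]
  refine v.map_add_lt ?_ ?_
  · rw [map_mul, h.val]
    exact mul_lt_mul_of_pos_left h' h.pos
  · rw [map_mul, mul_comm]
    exact mul_lt_mul_of_pos_right h h'.pos

theorem ValB_near.div {F g F' g' : RatFunc K} (h : ValB_near v F g) (h' : ValB_near v F' g') :
    ValB_near v (F / F') (g / g') := by
  unfold ValB_near
  have hF' := h'.ne
  have hg' := h'.ne'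
  have h1 : F / F' - g / g' = (g' * (F - g) + g * (g' - F')) / (F' * g') := by
    field_simp
    ring
  have h2 : v (g' * (F - g) + g * (g' - F')) < v g * v g' := by
    refine v.map_add_lt ?_ ?_
    · rw [map_mul, mul_comm]
      exact mul_lt_mul_of_pos_right h h'.pos
    · rw [map_mul, v.map_sub_swap]
      exact mul_lt_mul_of_pos_left h' h.pos
  rw [h1, map_div₀, map_mul v F' g', h'.val, map_div₀, div_lt_div_iff₀ (mul_pos h'.pos h'.pos) h'.pos]
  calc v (g' * (F - g) + g * (g' - F')) * v g' < (v g * v g') * v g' :=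
        mul_lt_mul_of_pos_right h2 h'.pos
    _ = v g * (v g' * v g') := by ring

theorem ValB_near.refl {g : RatFunc K} (h : g ≠ 0) : ValB_near v g g := by
  unfold ValB_near
  rw [sub_self, map_zero]
  exact (Valuation.pos_iff v).mpr h

theorem ValB_prod (G : Submonoid (RatFunc K)) (S : Multiset K)
    (h : ∀ α ∈ S, ∃ g ∈ G, ValB_near v (RatFunc.X - algebraMap K (RatFunc K) α) g) :
    ∃ g ∈ G, ValB_near v
      (S.map (fun α => RatFunc.X - algebraMap K (RatFunc K) α)).prod g := by
  induction S using Multiset.induction with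
  | empty =>
    refine ⟨1, G.one_mem, ?_⟩
    rw [Multiset.map_zero, Multiset.prod_zero]
    exact ValB_near.refl one_ne_zero
  | cons x S ih =>
    obtain ⟨g, hg, h1⟩ := ih (fun α hα => h α (Multiset.mem_cons_of_mem hα))
    obtain ⟨g', hg', h2⟩ := h x (Multiset.mem_cons_self x S)
    refine ⟨g' * g, G.mul_mem hg' hg, ?_⟩
    rw [Multiset.map_cons, Multiset.prod_cons]
    exact h2.mul h1

theorem ValB_factor [IsAlgClosed K] (F : K[X]) :
    algebraMap K[X] (RatFunc K) F = algebraMap K (RatFunc K) F.leadingCoeff *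
      (F.roots.map (fun α => RatFunc.X - algebraMap K (RatFunc K) α)).prod := by
  have h1 := (IsAlgClosed.splits F).eq_prod_roots
  conv_lhs => rw [h1]
  rw [map_mul, map_multiset_prod, Multiset.map_map]
  congr 1
  congr 1
  refine Multiset.map_congr rfl fun α _ => ?_
  simp only [Function.comp_apply, map_sub, RatFunc.algebraMap_X]
  rfl

/-- If all linear factors of a rational function are congruent to members of a submonoid. -/
theorem ValB_poly [IsAlgClosed K] (G : Submonoid (RatFunc K))
    (hG : ∀ l : K, l ≠ 0 → algebraMap K (RatFunc K) l ∈ G) {F : K[X]} (hF : F ≠ 0)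
    (h : ∀ α ∈ F.roots, ∃ g ∈ G, ValB_near v (RatFunc.X - algebraMap K (RatFunc K) α) g) :
    ∃ g ∈ G, ValB_near v (algebraMap K[X] (RatFunc K) F) g := by
  obtain ⟨g, hg, h1⟩ := ValB_prod G F.roots h
  have hl : F.leadingCoeff ≠ 0 := leadingCoeff_ne_zero.mpr hF
  refine ⟨algebraMap K (RatFunc K) F.leadingCoeff * g, G.mul_mem (hG _ hl) hg, ?_⟩
  rw [ValB_factor]
  refine (ValB_near.refl ?_).mul h1
  exact (_root_.map_ne_zero _).mpr hl

/-- The values of `X - z`. -/
theorem ValB_val_sub (hv : HPt v) {a z : K} :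
    v (RatFunc.X - algebraMap K (RatFunc K) z) ≤
      max (v (RatFunc.X - algebraMap K (RatFunc K) a)) ‖a - z‖₊ := by
  have h1 : RatFunc.X - algebraMap K (RatFunc K) z =
      (RatFunc.X - algebraMap K (RatFunc K) a) + algebraMap K (RatFunc K) (a - z) := by
    rw [map_sub]; ring
  rw [h1, ← hv]
  exact v.map_add _ _

theorem ValB_val_sub_eq (hv : HPt v) {a z : K}
    (h : v (RatFunc.X - algebraMap K (RatFunc K) a) < ‖a - z‖₊) :
    v (RatFunc.X - algebraMap K (RatFunc K) z) = ‖a - z‖₊ := by
  have h1 : RatFunc.X - algebraMap K (RatFunc K) z =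
      (RatFunc.X - algebraMap K (RatFunc K) a) + algebraMap K (RatFunc K) (a - z) := by
    rw [map_sub]; ring
  rw [h1, v.map_add_eq_of_lt_right (by rwa [hv]), hv]

/-- **Classification.**  A point with residue field larger than the one of `K` is a Gauss valuation.
Proof: write `f = l * ∏ (X - α)^{n_α}` (product over a finite set `S` of zeros and poles, nonempty as
`f` is not constant), `r_α = v (X - α) > 0` (`v` is a valuation of a field).  If some `a ∈ K` satisfies
`v (X - a) < r_α` for all `α ∈ S` then `r_α = ‖a - α‖` and `(X - α) / (a - α) = 1 + (X - a)/(a - α)` is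
congruent to `1`, so `v (f - e) < 1` for `e = l * ∏ (a - α)^{n_α}`, `‖e‖ = v f = 1`: contradiction.
Hence for `α₀ ∈ S` with `r = r_{α₀}` minimal `v (X - a) ≥ r` for all `a`; so
`v (X - z) = max r ‖α₀ - z‖` for all `z`.  Finally `r` is a radius: otherwise
`‖α₀ - α‖ ≠ r` for all `α ∈ S`, `X - α` is congruent (up to a factor with `v (1 - ·) < 1`) to `X - α₀` if
`‖α₀ - α‖ < r` and to the constant `α₀ - α` otherwise; so `f` is congruent to `l' * (X - α₀)^n`,
`1 = ‖l'‖ * r^n`; if `n ≠ 0` then `r` is a radius (`isRad_of_pow_eq`), if `n = 0` then `v (f - l') < 1`: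
contradiction. -/
theorem exists_isG [IsAlgClosed K] {v : Valuation (RatFunc K) ℝ≥0} (hv : HPt v)
    (h : ∃ f : RatFunc K, v f = 1 ∧
      ∀ e : K, ‖e‖ ≤ 1 → v (f - algebraMap K (RatFunc K) e) = 1) :
    ∃ a r, IsRad K r ∧ IsG v a r := by
  classical
  obtain ⟨f, hf1, hfe⟩ := h
  have hf0 : f ≠ 0 := by
    rintro rfl
    rw [map_zero] at hf1
    exact zero_ne_one hf1
  have hN0 := RatFunc.num_ne_zero hf0
  have hM0 := RatFunc.denom_ne_zero f
  -- `f` is not congruent to a constant
  have hconst : ∀ l : K, ¬ ValB_near v f (algebraMap K (RatFunc K) l) := by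
    intro l hl
    have h1 : ‖l‖₊ = 1 := by rw [← hv, ← hl.val, hf1]
    have h2 : ‖l‖ = 1 := by rw [← coe_nnnorm, h1, NNReal.coe_one]
    have h3 := hfe l h2.le
    unfold ValB_near at hl
    rw [h3, hv, h1] at hl
    exact lt_irrefl _ hl
  set S : Multiset K := f.num.roots + f.denom.roots with hS
  -- a center
  have hA : ∃ α₀ ∈ S, ∀ a : K, v (RatFunc.X - algebraMap K (RatFunc K) α₀) ≤
      v (RatFunc.X - algebraMap K (RatFunc K) a) := by
    by_contra hcon
    push Not at hcon
    -- one point closer than all the roots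
    have hex : ∀ T : Multiset K, T ≤ S → ∃ a : K, ∀ α ∈ T,
        v (RatFunc.X - algebraMap K (RatFunc K) a) <
          v (RatFunc.X - algebraMap K (RatFunc K) α) := by
      intro T
      induction T using Multiset.induction with
      | empty => intro _; exact ⟨0, fun α hα => absurd hα (Multiset.notMem_zero α)⟩
      | cons x T ih =>
        intro hT
        obtain ⟨a, ha⟩ := ih ((Multiset.le_cons_self T x).trans hT)
        obtain ⟨b, hb⟩ := hcon x (Multiset.mem_of_le hT (Multiset.mem_cons_self x T))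
        rcases le_total (v (RatFunc.X - algebraMap K (RatFunc K) a))
          (v (RatFunc.X - algebraMap K (RatFunc K) b)) with hab | hab
        · refine ⟨a, fun α hα => ?_⟩
          rcases Multiset.mem_cons.mp hα with rfl | hα
          · exact lt_of_le_of_lt hab hb
          · exact ha α hα
        · refine ⟨b, fun α hα => ?_⟩
          rcases Multiset.mem_cons.mp hα with rfl | hα
          · exact hb
          · exact lt_of_le_of_lt hab (ha α hα)
    obtain ⟨a, ha⟩ := hex S le_rfl
    let G : Submonoid (RatFunc K) :=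
      { carrier := {g | ∃ l : K, l ≠ 0 ∧ g = algebraMap K (RatFunc K) l}
        mul_mem' := by
          rintro x y ⟨l, hl, rfl⟩ ⟨l', hl', rfl⟩
          exact ⟨l * l', mul_ne_zero hl hl', (map_mul _ _ _).symm⟩
        one_mem' := ⟨1, one_ne_zero, (map_one _).symm⟩ }
    have hG : ∀ l : K, l ≠ 0 → algebraMap K (RatFunc K) l ∈ G := fun l hl => ⟨l, hl, rfl⟩
    have hlin : ∀ α ∈ S, ∃ g ∈ G,
        ValB_near v (RatFunc.X - algebraMap K (RatFunc K) α) g := by
      intro α hα
      have h1 := ha α hα
      have h2 : v (RatFunc.X - algebraMap K (RatFunc K) a) < ‖a - α‖₊ := by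
        by_contra hn
        have h3 := ValB_val_sub hv (a := a) (z := α)
        rw [max_eq_left (not_lt.mp hn)] at h3
        exact absurd h1 (not_lt.mpr h3)
      refine ⟨algebraMap K (RatFunc K) (a - α), hG _ ?_, ?_⟩
      · intro h0
        rw [h0, nnnorm_zero] at h2
        exact absurd h2 (not_lt.mpr zero_le)
      · unfold ValB_near
        rw [hv]
        have h4 : RatFunc.X - algebraMap K (RatFunc K) α - algebraMap K (RatFunc K) (a - α) =
            RatFunc.X - algebraMap K (RatFunc K) a := by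
          rw [map_sub]; ring
        rwa [h4]
    obtain ⟨g, ⟨l, hl, rfl⟩, h1⟩ := ValB_poly G hG hN0
      (fun α hα => hlin α (Multiset.mem_add.mpr (Or.inl hα)))
    obtain ⟨g', ⟨l', hl', rfl⟩, h2⟩ := ValB_poly G hG hM0
      (fun α hα => hlin α (Multiset.mem_add.mpr (Or.inr hα)))
    have h3 := h1.div h2
    rw [RatFunc.num_div_denom, ← map_div₀] at h3
    exact hconst _ h3
  obtain ⟨α₀, hα₀, hmin⟩ := hA
  set r : ℝ := ((v (RatFunc.X - algebraMap K (RatFunc K) α₀) : ℝ≥0) : ℝ) with hr
  have hr0 : 0 < r := by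
    rw [hr]
    have h1 : RatFunc.X - algebraMap K (RatFunc K) α₀ ≠ 0 := by
      intro h0
      have h2 : algebraMap K[X] (RatFunc K) (X - C α₀) = 0 := by
        rw [map_sub, RatFunc.algebraMap_X]
        exact h0
      rw [map_eq_zero_iff _ (RatFunc.algebraMap_injective K)] at h2
      exact X_sub_C_ne_zero _ h2
    exact_mod_cast (Valuation.pos_iff v).mpr h1
  have hG' : IsG v α₀ r := by
    intro z
    by_cases hz : v (RatFunc.X - algebraMap K (RatFunc K) α₀) < ‖α₀ - z‖₊
    · rw [ValB_val_sub_eq hv hz]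
      have : r < ‖α₀ - z‖ := by rw [hr]; exact_mod_cast hz
      rw [max_eq_right this.le]
      rfl
    · have h1 := ValB_val_sub hv (a := α₀) (z := z)
      rw [max_eq_left (not_lt.mp hz)] at h1
      have h2 := le_antisymm h1 (hmin z)
      rw [h2]
      have : ‖α₀ - z‖ ≤ r := by rw [hr]; exact_mod_cast not_lt.mp hz
      rw [max_eq_left this]
  refine ⟨α₀, r, ?_, hG'⟩
  by_contra hnr
  let G : Submonoid (RatFunc K) :=
    { carrier := {g | ∃ (l : K) (m : ℕ), l ≠ 0 ∧ g = algebraMap K (RatFunc K) l *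
        (RatFunc.X - algebraMap K (RatFunc K) α₀) ^ m}
      mul_mem' := by
        rintro x y ⟨l, m, hl, rfl⟩ ⟨l', m', hl', rfl⟩
        exact ⟨l * l', m + m', mul_ne_zero hl hl', by rw [map_mul, pow_add]; ring⟩
      one_mem' := ⟨1, 0, one_ne_zero, by rw [map_one, pow_zero, one_mul]⟩ }
  have hG : ∀ l : K, l ≠ 0 → algebraMap K (RatFunc K) l ∈ G :=
    fun l hl => ⟨l, 0, hl, by rw [pow_zero, mul_one]⟩
  have hlin : ∀ α : K, ∃ g ∈ G,
      ValB_near v (RatFunc.X - algebraMap K (RatFunc K) α) g := by
    intro α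
    rcases lt_trichotomy ‖α₀ - α‖ r with hlt | heq | hgt
    · refine ⟨RatFunc.X - algebraMap K (RatFunc K) α₀,
        ⟨1, 1, one_ne_zero, by rw [map_one, one_mul, pow_one]⟩, ?_⟩
      unfold ValB_near
      have h4 : RatFunc.X - algebraMap K (RatFunc K) α -
          (RatFunc.X - algebraMap K (RatFunc K) α₀) = algebraMap K (RatFunc K) (α₀ - α) := by
        rw [map_sub]; ring
      rw [h4, hv]
      rw [hr] at hlt
      exact_mod_cast hlt
    · exfalso
      apply hnr
      refine ⟨α₀ - α, ?_, heq⟩
      intro h0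
      rw [h0, norm_zero] at heq
      exact hr0.ne heq
    · refine ⟨algebraMap K (RatFunc K) (α₀ - α), hG _ ?_, ?_⟩
      · intro h0
        rw [h0, norm_zero] at hgt
        exact absurd hgt (not_lt.mpr hr0.le)
      · unfold ValB_near
        rw [hv]
        have h4 : RatFunc.X - algebraMap K (RatFunc K) α - algebraMap K (RatFunc K) (α₀ - α) =
            RatFunc.X - algebraMap K (RatFunc K) α₀ := by
          rw [map_sub]; ring
        rw [h4]
        rw [hr] at hgt
        exact_mod_cast hgt
  obtain ⟨g, ⟨l, m, hl, rfl⟩, h1⟩ := ValB_poly G hG hN0 (fun α _ => hlin α)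
  obtain ⟨g', ⟨l', m', hl', rfl⟩, h2⟩ := ValB_poly G hG hM0 (fun α _ => hlin α)
  have h3 := h1.div h2
  rw [RatFunc.num_div_denom] at h3
  have hx0 : RatFunc.X - algebraMap K (RatFunc K) α₀ ≠ 0 := by
    intro h0
    rw [h0, map_zero] at hr
    rw [hr] at hr0
    simp at hr0
  by_cases hmm : m = m'
  · subst hmm
    have h5 : algebraMap K (RatFunc K) l * (RatFunc.X - algebraMap K (RatFunc K) α₀) ^ m /
        (algebraMap K (RatFunc K) l' * (RatFunc.X - algebraMap K (RatFunc K) α₀) ^ m) =
        algebraMap K (RatFunc K) (l / l') := by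
      rw [mul_div_mul_right _ _ (pow_ne_zero m hx0), map_div₀]
    rw [h5] at h3
    exact hconst _ h3
  · apply hnr
    have h6 := h3.val
    rw [hf1, map_div₀, map_mul, map_mul, map_pow, map_pow, hv, hv, eq_comm, div_eq_one_iff_eq] at h6
    · have h7 := congrArg (fun x : ℝ≥0 => (x : ℝ)) h6
      simp only [NNReal.coe_mul, NNReal.coe_pow, coe_nnnorm] at h7
      exact isRad_of_pow_eq hr0 hl hl' hmm h7
    · rw [← hv, ← map_pow, ← map_mul]
      exact ((Valuation.pos_iff v).mpr (mul_ne_zero ((_root_.map_ne_zero _).mpr hl')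
        (pow_ne_zero _ hx0))).ne'

end PoolBerk
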