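import Pool.Agent.H.MP_db48a2_an.Bk.Defs

/-!
# Polynomials over a field
-/

namespace PoolBerk

open Polynomial Metric

variable {k : Type*} [Field k]

/-- Degree of the rational function `p / q` over a field. -/
noncomputable def degPQ (p q : k[X]) : ℕ :=
  letI := Classical.decEq k[X]
  max (p / EuclideanDomain.gcd p q).natDegree (q / EuclideanDomain.gcd p q).natDegree

/-- `p = A p₁`, `q = A q₁` with coprime `p₁`, `q₁`. -/
theorem exists_coprime_parts {p q : k[X]} (h : q ≠ 0) :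
    ∃ A p₁ q₁ : k[X], A ≠ 0 ∧ p = A * p₁ ∧ q = A * q₁ ∧ IsCoprime p₁ q₁ ∧ q₁ ≠ 0 ∧
      degPQ p q = max p₁.natDegree q₁.natDegree := by
  letI := Classical.decEq k[X]
  have hA : EuclideanDomain.gcd p q ≠ 0 := fun h0 => h (EuclideanDomain.gcd_eq_zero_iff.1 h0).2
  have h1 : EuclideanDomain.gcd p q * (p / EuclideanDomain.gcd p q) = p :=
    EuclideanDomain.mul_div_cancel' hA (EuclideanDomain.gcd_dvd_left p q)
  have h2 : EuclideanDomain.gcd p q * (q / EuclideanDomain.gcd p q) = q :=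
    EuclideanDomain.mul_div_cancel' hA (EuclideanDomain.gcd_dvd_right p q)
  refine ⟨EuclideanDomain.gcd p q, p / EuclideanDomain.gcd p q, q / EuclideanDomain.gcd p q, hA,
    h1.symm, h2.symm, ⟨EuclideanDomain.gcdA p q, EuclideanDomain.gcdB p q, ?_⟩, ?_, rfl⟩
  · have h3 := EuclideanDomain.gcd_eq_gcd_ab p q
    apply mul_left_cancel₀ hA
    rw [mul_one]
    calc EuclideanDomain.gcd p q *
        (EuclideanDomain.gcdA p q * (p / EuclideanDomain.gcd p q) +
          EuclideanDomain.gcdB p q * (q / EuclideanDomain.gcd p q))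
        = (EuclideanDomain.gcd p q * (p / EuclideanDomain.gcd p q)) * EuclideanDomain.gcdA p q +
          (EuclideanDomain.gcd p q * (q / EuclideanDomain.gcd p q)) *
            EuclideanDomain.gcdB p q := by ring
      _ = p * EuclideanDomain.gcdA p q + q * EuclideanDomain.gcdB p q := by rw [h1, h2]
      _ = EuclideanDomain.gcd p q := h3.symm
  · intro h0
    rw [h0, mul_zero] at h2
    exact h h2.symm

/-- If `p₁`, `q₁` are coprime and not proportional then the degree is at least one. -/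
theorem one_le_max {p₁ q₁ : k[X]} (hq : q₁ ≠ 0) (hlin : ∀ β : k, p₁ ≠ C β * q₁) :
    1 ≤ max p₁.natDegree q₁.natDegree := by
  by_contra hcon
  have h1 : p₁.natDegree = 0 := by omega
  have h2 : q₁.natDegree = 0 := by omega
  rw [natDegree_eq_zero] at h1 h2
  obtain ⟨x, rfl⟩ := h1
  obtain ⟨y, rfl⟩ := h2
  have hy : y ≠ 0 := fun h0 => hq (by rw [h0, C_0])
  apply hlin (x / y)
  rw [← C_mul, div_mul_cancel₀ _ hy]

/-- Behaviour at infinity: if `natDegree (p₁ - X q₁) < D = max (natDegree p₁) (natDegree q₁)` or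
`p₁ = X q₁`, then `natDegree q₁ + 1 = D`. -/
theorem up_alg {p₁ q₁ : k[X]} (hq : q₁ ≠ 0)
    (h : p₁ - X * q₁ = 0 ∨ (p₁ - X * q₁).natDegree < max p₁.natDegree q₁.natDegree) :
    q₁.natDegree + 1 = max p₁.natDegree q₁.natDegree := by
  have hX : (X * q₁).natDegree = q₁.natDegree + 1 := natDegree_X_mul hq
  have key : p₁.natDegree = q₁.natDegree + 1 := by
    by_contra hne
    rcases h with h | h
    · apply hne
      rw [sub_eq_zero.1 h, hX]
    · rcases lt_or_gt_of_ne hne with h1 | h1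
      · rw [natDegree_sub_eq_right_of_natDegree_lt (by rw [hX]; exact h1), hX] at h
        omega
      · rw [natDegree_sub_eq_left_of_natDegree_lt (by rw [hX]; exact h1)] at h
        omega
  omega

/-- Behaviour at a direction `w`, `p₁ w = w q₁ w`: if the multiplicity `n` of `w` as a zero of
`p₁ - w q₁` is at least `2` then `w` is a simple zero of `p₁ - X q₁`. -/
theorem dir_alg {p₁ q₁ : k[X]} (hcop : IsCoprime p₁ q₁) (hlin : ∀ β : k, p₁ ≠ C β * q₁) {w : k}
    (hw : p₁.eval w = w * q₁.eval w) (h2 : 2 ≤ (p₁ - C w * q₁).rootMultiplicity w) :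
    p₁ - X * q₁ ≠ 0 ∧ (p₁ - X * q₁).rootMultiplicity w = 1 := by
  have hq : q₁.eval w ≠ 0 := by
    intro h0
    obtain ⟨a, b, hab⟩ := hcop
    have h1 := congrArg (eval w) hab
    rw [eval_add, eval_mul, eval_mul, hw, h0, mul_zero, mul_zero, mul_zero, add_zero, eval_one] at h1
    exact zero_ne_one h1
  have hne : p₁ - C w * q₁ ≠ 0 := sub_ne_zero.2 (hlin w)
  have hdvd : (X - C w) ^ 2 ∣ p₁ - C w * q₁ := (le_rootMultiplicity_iff hne).1 h2
  have hX : (X - C w : k[X]) ≠ 0 := X_sub_C_ne_zero w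
  have e : p₁ - X * q₁ = (p₁ - C w * q₁) - (X - C w) * q₁ := by ring
  have hnd : ¬ (X - C w) ^ 2 ∣ p₁ - X * q₁ := by
    intro h3
    have h4 : (X - C w) ^ 2 ∣ (X - C w) * q₁ := by
      have h5 := dvd_sub hdvd h3
      rwa [e, sub_sub_cancel] at h5
    rw [sq] at h4
    have h6 := (mul_dvd_mul_iff_left hX).1 h4
    exact hq (dvd_iff_isRoot.1 h6)
  have h0 : p₁ - X * q₁ ≠ 0 := by
    intro h3
    rw [h3] at hnd
    exact hnd (dvd_zero _)
  refine ⟨h0, le_antisymm ?_ ?_⟩
  · rw [rootMultiplicity_le_iff h0]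
    exact hnd
  · rw [Nat.one_le_iff_ne_zero, ← Nat.pos_iff_ne_zero, rootMultiplicity_pos h0, IsRoot.def,
      eval_sub, eval_mul, eval_X, hw, sub_self]

end PoolBerk
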