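import Pool.Agent.H.MP_db48a2_an.Bk.ValC
import Pool.Agent.H.MP_db48a2_an.Bk.Alg

/-!
# The local degree
-/

namespace PoolBerk

open Polynomial Metric

open scoped NNReal

variable {K : Type*} [NontriviallyNormedField K] [IsUltrametricDist K]

variable {v : Valuation (RatFunc K) ℝ≥0} {σ : RatFunc K →ₐ[K] RatFunc K} {a c e : K}

theorem ValD_residue_eq_zero (v : Valuation (RatFunc K) ℝ≥0) (g : v.valuationSubring) :
    IsLocalRing.residue v.valuationSubring g = 0 ↔ v (g : RatFunc K) < 1 := by
  rw [IsLocalRing.residue_eq_zero_iff, IsLocalRing.mem_maximalIdeal, mem_nonunits_iff]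
  have hg : v (g : RatFunc K) ≤ 1 := (Valuation.mem_valuationSubring_iff v _).mp g.2
  constructor
  · intro h
    by_contra hn
    have h1 : v (g : RatFunc K) = 1 := le_antisymm hg (not_lt.mp hn)
    apply h
    have hg0 : (g : RatFunc K) ≠ 0 := by
      intro h0
      rw [h0, map_zero] at h1
      exact zero_ne_one h1
    refine IsUnit.of_mul_eq_one ⟨(g : RatFunc K)⁻¹, ?_⟩ ?_
    · rw [Valuation.mem_valuationSubring_iff, map_inv₀, h1, inv_one]
    · apply Subtype.ext
      simp [hg0]
  · intro h hu
    obtain ⟨u, hu⟩ := hu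
    have h2 : (g : RatFunc K) * ((u⁻¹ : (v.valuationSubring)ˣ) : v.valuationSubring) = 1 := by
      rw [← hu]
      exact congrArg (Subtype.val) (u.mul_inv)
    have h3 : v (g : RatFunc K) * v (((u⁻¹ : (v.valuationSubring)ˣ) : v.valuationSubring) :
      RatFunc K) = 1 := by rw [← map_mul, h2, map_one]
    have h4 : v (((u⁻¹ : (v.valuationSubring)ˣ) : v.valuationSubring) : RatFunc K) ≤ 1 :=
      (Valuation.mem_valuationSubring_iff v _).mp ((u⁻¹ : (v.valuationSubring)ˣ) :
        v.valuationSubring).2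
    have h5 := mul_le_mul' (le_refl (v (g : RatFunc K))) h4
    rw [h3, mul_one] at h5
    exact absurd h (not_lt.mpr h5)

theorem ValD_v_const (hv : HPt v) (x : OK K) :
    algebraMap K (RatFunc K) (x : K) ∈ v.valuationSubring := by
  rw [Valuation.mem_valuationSubring_iff, hv]
  have := mem_OK.mp x.2
  exact_mod_cast this

/-- Inclusion of the rings of integers. -/
noncomputable def ValD_incl (hv : HPt v) : OK K →+* v.valuationSubring :=
  ((algebraMap K (RatFunc K)).comp (OK K).subtype).codRestrict v.valuationSubring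
    (fun x => ValD_v_const hv x)

theorem ValD_incl_coe (hv : HPt v) (x : OK K) :
    ((ValD_incl hv x : v.valuationSubring) : RatFunc K) = algebraMap K (RatFunc K) (x : K) := rfl

theorem ValD_red_coe (x : OK K) : red (x : K) = IsLocalRing.residue (OK K) x := by
  unfold red
  rw [dif_pos x.2]

instance ValD_local (hv : HPt v) :
    IsLocalHom ((IsLocalRing.residue v.valuationSubring).comp (ValD_incl hv)) := by
  constructor
  intro x hx
  by_contra hn
  have h1 : IsLocalRing.residue (OK K) x = 0 := by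
    rw [IsLocalRing.residue_eq_zero_iff, IsLocalRing.mem_maximalIdeal, mem_nonunits_iff]
    exact hn
  rw [← ValD_red_coe, red_eq_zero_iff (mem_OK.mp x.2)] at h1
  have h2 : IsLocalRing.residue v.valuationSubring (ValD_incl hv x) = 0 := by
    rw [ValD_residue_eq_zero, ValD_incl_coe, hv]
    exact_mod_cast h1
  rw [RingHom.comp_apply, h2] at hx
  exact not_isUnit_zero hx

/-- The map between the residue fields. -/
noncomputable def ValD_iota (hv : HPt v) : kK K →+* resF v :=
  letI := ValD_local hv
  IsLocalRing.ResidueField.lift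
    ((IsLocalRing.residue v.valuationSubring).comp (ValD_incl hv))

theorem ValD_iota_residue (hv : HPt v) (x : OK K) :
    ValD_iota hv (IsLocalRing.residue (OK K) x) =
      IsLocalRing.residue v.valuationSubring (ValD_incl hv x) := by
  letI := ValD_local hv
  exact IsLocalRing.ResidueField.lift_residue_apply _ x

theorem ValD_lift {G : K[X]} (hG : Intg G) :
    ∃ G' : (OK K)[X], G'.map (OK K).subtype = G ∧
      redP G = G'.map (IsLocalRing.residue (OK K)) := by
  refine ⟨∑ n ∈ Finset.range (G.natDegree + 1), monomial n ⟨G.coeff n, mem_OK.mpr (hG n)⟩, ?_, ?_⟩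
  · rw [Polynomial.map_sum]
    conv_rhs => rw [G.as_sum_range]
    refine Finset.sum_congr rfl fun n _ => ?_
    rw [Polynomial.map_monomial]
    rfl
  · rw [Polynomial.map_sum]
    unfold redP
    refine Finset.sum_congr rfl fun n _ => ?_
    rw [Polynomial.map_monomial, ← ValD_red_coe]

/-- The residue of the value at the coordinate of an integral polynomial. -/
theorem ValD_residue_aeval [IsAlgClosed K] (hv : HPt v) (hc : c ≠ 0) (h : IsG v a ‖c‖)
    (ht : tau a c ∈ v.valuationSubring) {G : K[X]} (hG : Intg G)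
    (hm : aeval (tau a c) G ∈ v.valuationSubring) :
    IsLocalRing.residue v.valuationSubring ⟨aeval (tau a c) G, hm⟩ =
      (redP G).eval₂ (ValD_iota hv) (IsLocalRing.residue v.valuationSubring ⟨tau a c, ht⟩) := by
  obtain ⟨G', h1, h2⟩ := ValD_lift hG
  have h3 : (⟨aeval (tau a c) G, hm⟩ : v.valuationSubring) =
      G'.eval₂ (ValD_incl hv) ⟨tau a c, ht⟩ := by
    apply Subtype.ext
    have h4 : ((G'.eval₂ (ValD_incl hv) ⟨tau a c, ht⟩ : v.valuationSubring) : RatFunc K) =
        v.valuationSubring.subtype (G'.eval₂ (ValD_incl hv) ⟨tau a c, ht⟩) := rfl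
    rw [h4, Polynomial.hom_eval₂]
    change aeval (tau a c) G = _
    rw [← h1, aeval_def, Polynomial.eval₂_map]
    rfl
  rw [h3, Polynomial.hom_eval₂, h2, Polynomial.eval₂_map]
  congr 1

theorem ValD_tau_mem [IsAlgClosed K] (hv : HPt v) (hc : c ≠ 0) (h : IsG v a ‖c‖) :
    v (tau a c) = 1 := by
  have h1 := (val_aeval hv hc h (G := (X : K[X])) Intg.var).2.1 (by
    rw [redP_X]; exact X_ne_zero)
  rwa [aeval_X] at h1

/-- The image of the residue field of `K` is contained in the image field. -/
theorem ValD_iota_mem (hv : HPt v) (x : kK K) : ValD_iota hv x ∈ imF σ v := by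
  obtain ⟨y, rfl⟩ := IsLocalRing.residue_surjective x
  rw [ValD_iota_residue]
  apply Subfield.subset_closure
  refine ⟨ValD_incl hv y, ⟨algebraMap K (RatFunc K) (y : K), ?_⟩, rfl⟩
  rw [AlgHom.commutes, ValD_incl_coe]

theorem ValD_top [IsAlgClosed K] (hv : HPt v) (hc : c ≠ 0) (h : IsG v a ‖c‖)
    (ht : tau a c ∈ v.valuationSubring) (L : Subfield (resF v))
    (hL : ∀ x : kK K, ValD_iota hv x ∈ L)
    (htL : IsLocalRing.residue v.valuationSubring ⟨tau a c, ht⟩ ∈ L) : ∀ y : resF v, y ∈ L := by
  intro y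
  obtain ⟨f, rfl⟩ := IsLocalRing.residue_surjective y
  have hpoly : ∀ G : K[X], Intg G → ∀ hm : aeval (tau a c) G ∈ v.valuationSubring,
      IsLocalRing.residue v.valuationSubring ⟨aeval (tau a c) G, hm⟩ ∈ L := by
    intro G hG hm
    rw [ValD_residue_aeval hv hc h ht hG hm, Polynomial.eval₂_eq_sum_range]
    exact sum_mem fun n _ => mul_mem (hL _) (pow_mem htL n)
  by_cases hf : (f : RatFunc K) = 0
  · have : f = 0 := Subtype.ext hf
    rw [this, map_zero]
    exact zero_mem L
  set N : K[X] := aff a c (f : RatFunc K).num with hN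
  set M : K[X] := aff a c (f : RatFunc K).denom with hM
  have hN0 : N ≠ 0 := by
    rw [hN, Ne, aff_eq_zero_iff hc]
    exact RatFunc.num_ne_zero hf
  have hM0 : M ≠ 0 := by
    rw [hM, Ne, aff_eq_zero_iff hc]
    exact RatFunc.denom_ne_zero _
  obtain ⟨e1, he1, hi1, -, hr1⟩ := exists_normalize (F := N) (G := N) (Or.inl hN0)
  obtain ⟨e2, he2, hi2, -, hr2⟩ := exists_normalize (F := M) (G := M) (Or.inl hM0)
  have hr1' : redP (C e1 * N) ≠ 0 := by tauto
  have hr2' : redP (C e2 * M) ≠ 0 := by tauto
  have hv1 := (val_aeval hv hc h hi1).2.1 hr1'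
  have hv2 := (val_aeval hv hc h hi2).2.1 hr2'
  have hm1 : aeval (tau a c) (C e1 * N) ∈ v.valuationSubring := by
    rw [Valuation.mem_valuationSubring_iff, hv1]
  have hm2 : aeval (tau a c) (C e2 * M) ∈ v.valuationSubring := by
    rw [Valuation.mem_valuationSubring_iff, hv2]
  have hden : algebraMap K[X] (RatFunc K) (f : RatFunc K).denom ≠ 0 := by
    simpa using RatFunc.denom_ne_zero (f : RatFunc K)
  have hfe : (f : RatFunc K) * aeval (tau a c) (C e2 * M) =
      algebraMap K (RatFunc K) (e2 / e1) * aeval (tau a c) (C e1 * N) := by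
    rw [map_mul, map_mul, hM, hN, aeval_tau_aff hc, aeval_tau_aff hc, aeval_C, aeval_C]
    have h5 : (f : RatFunc K) * algebraMap K[X] (RatFunc K) (f : RatFunc K).denom =
        algebraMap K[X] (RatFunc K) (f : RatFunc K).num := by
      have h5' := RatFunc.num_div_denom (f : RatFunc K)
      rw [div_eq_iff hden] at h5'
      exact h5'.symm
    have h6 : algebraMap K (RatFunc K) (e2 / e1) * algebraMap K (RatFunc K) e1 =
        algebraMap K (RatFunc K) e2 := by
      rw [← map_mul, div_mul_cancel₀ _ he1]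
    rw [← mul_assoc (algebraMap K (RatFunc K) (e2 / e1)), h6, ← h5]
    ring
  have hvf : v (f : RatFunc K) = ‖e2 / e1‖₊ := by
    have := congrArg v hfe
    rwa [Valuation.map_mul, Valuation.map_mul, hv1, hv2, mul_one, mul_one, hv] at this
  have hee : ‖e2 / e1‖ ≤ 1 := by
    have h7 : v (f : RatFunc K) ≤ 1 := (Valuation.mem_valuationSubring_iff v _).mp f.2
    rw [hvf] at h7
    exact_mod_cast h7
  have h8 : f * ⟨aeval (tau a c) (C e2 * M), hm2⟩ =
      ValD_incl hv ⟨e2 / e1, mem_OK.mpr hee⟩ * ⟨aeval (tau a c) (C e1 * N), hm1⟩ :=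
    Subtype.ext hfe
  have h9 := congrArg (IsLocalRing.residue v.valuationSubring) h8
  rw [RingHom.map_mul, RingHom.map_mul, ← ValD_iota_residue] at h9
  have h10 : IsLocalRing.residue v.valuationSubring ⟨aeval (tau a c) (C e2 * M), hm2⟩ ≠ 0 := by
    rw [Ne, ValD_residue_eq_zero]
    simp only [hv2, lt_irrefl, not_false_eq_true]
  rw [← eq_div_iff h10] at h9
  rw [h9]
  exact div_mem (mul_mem (hL _) (hpoly _ hi1 hm1)) (hpoly _ hi2 hm2)

/-- The local degree is at most the degree of the reduction.
Proof: `κ = resF v`, `t` the residue of `tau` (`v tau = 1`), `ι : kK K → κ` the map induced by the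
inclusion.  By `val_aeval`, `val_aeval_sub` the residue of `G (tau)`, `G` integral, is
`(redP G) (t)` (via `ι`).  Every element of `κ` is a residue of some `f = F₁ (tau) / F₂ (tau)` with
`F₂` integral of nonzero reduction and then `F₁` integral; so `κ` is generated as a field by `ι (kK K)`
and `t`.  `imF σ v` contains `ι (kK K)` and the residue `s` of `σ tau` (`v (σ tau) = v tau = 1`).
With `p = A p₁`, `q = A q₁` (`exists_coprime_parts`), `sigma_tau` gives `s * q (t) = p (t)`,
`q (t) ≠ 0` (value one), so `A (t) ≠ 0` and `t` is a root of `p₁ - s q₁`, a nonzero polynomial over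
`imF σ v` (otherwise `s ∈ ι (kK K)` and `p₁ = C β * q₁`) of degree at most
`max (natDegree p₁) (natDegree q₁) = degPQ p q`. -/
theorem locDeg_le [IsAlgClosed K] (hv : HPt v) (hc : c ≠ 0) (h : IsG v a ‖c‖)
    (hfix : ∀ f, v (σ f) = v f) (he : e ≠ 0)
    (hP : Intg (C e * aff a c ((σ RatFunc.X).num - C a * (σ RatFunc.X).denom)))
    (hQ : Intg (C (e * c) * aff a c (σ RatFunc.X).denom))
    (hq : redP (C (e * c) * aff a c (σ RatFunc.X).denom) ≠ 0)
    (hlin : ∀ β : kK K, redP (C e * aff a c ((σ RatFunc.X).num - C a * (σ RatFunc.X).denom)) ≠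
      C β * redP (C (e * c) * aff a c (σ RatFunc.X).denom)) :
    locDeg σ v ≤ degPQ (redP (C e * aff a c ((σ RatFunc.X).num - C a * (σ RatFunc.X).denom)))
      (redP (C (e * c) * aff a c (σ RatFunc.X).denom)) := by
  set Py := C e * aff a c ((σ RatFunc.X).num - C a * (σ RatFunc.X).denom) with hPy
  set Qy := C (e * c) * aff a c (σ RatFunc.X).denom with hQy
  obtain ⟨A, p₁, q₁, hA, hp, hq', hcop, hq1, hdeg⟩ := exists_coprime_parts (p := redP Py) hq
  rw [hdeg]
  have hvt := ValD_tau_mem hv hc h
  have ht : tau a c ∈ v.valuationSubring := by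
    rw [Valuation.mem_valuationSubring_iff, hvt]
  have hs : σ (tau a c) ∈ v.valuationSubring := by
    rw [Valuation.mem_valuationSubring_iff, hfix, hvt]
  set t : resF v := IsLocalRing.residue v.valuationSubring ⟨tau a c, ht⟩ with htdef
  set s : resF v := IsLocalRing.residue v.valuationSubring ⟨σ (tau a c), hs⟩ with hsdef
  have hsL : s ∈ imF σ v := by
    apply Subfield.subset_closure
    exact ⟨⟨σ (tau a c), hs⟩, ⟨tau a c, rfl⟩, rfl⟩
  -- the relation
  have hvP := (val_aeval hv hc h hP).1
  have hvQ := (val_aeval hv hc h hQ).2.1 hq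
  have hmP : aeval (tau a c) Py ∈ v.valuationSubring := by
    rw [Valuation.mem_valuationSubring_iff]; exact hvP
  have hmQ : aeval (tau a c) Qy ∈ v.valuationSubring := by
    rw [Valuation.mem_valuationSubring_iff, hvQ]
  have hrel : (⟨σ (tau a c), hs⟩ : v.valuationSubring) * ⟨aeval (tau a c) Qy, hmQ⟩ =
      ⟨aeval (tau a c) Py, hmP⟩ := Subtype.ext (sigma_tau hc)
  have hrel2 := congrArg (IsLocalRing.residue v.valuationSubring) hrel
  rw [map_mul, ValD_residue_aeval hv hc h ht hP hmP, ValD_residue_aeval hv hc h ht hQ hmQ,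
    ← htdef, ← hsdef] at hrel2
  have hQt : (redP Qy).eval₂ (ValD_iota hv) t ≠ 0 := by
    rw [htdef, ← ValD_residue_aeval hv hc h ht hQ hmQ, Ne, ValD_residue_eq_zero]
    simp only [hvQ, lt_irrefl, not_false_eq_true]
  rw [hp, hq', eval₂_mul, eval₂_mul] at hrel2
  rw [hq', eval₂_mul] at hQt
  have hAt : A.eval₂ (ValD_iota hv) t ≠ 0 := left_ne_zero_of_mul hQt
  have hrel3 : s * q₁.eval₂ (ValD_iota hv) t = p₁.eval₂ (ValD_iota hv) t := by
    apply mul_left_cancel₀ hAt
    rw [← hrel2]; ring
  -- the polynomial over the image field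
  let j : kK K →+* imF σ v := (ValD_iota hv).codRestrict (imF σ v) (fun x => ValD_iota_mem hv x)
  have hj : ∀ x, ((j x : imF σ v) : resF v) = ValD_iota hv x := fun x => rfl
  have hjinj : Function.Injective j := j.injective
  let W : (imF σ v)[X] := p₁.map j - C ⟨s, hsL⟩ * q₁.map j
  have hWdeg : W.natDegree ≤ max p₁.natDegree q₁.natDegree := by
    refine (natDegree_sub_le _ _).trans (max_le_max ?_ ?_)
    · exact natDegree_map_le
    · exact (natDegree_C_mul_le _ _).trans natDegree_map_le
  have hW0 : W ≠ 0 := by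
    intro hW
    obtain ⟨n, hn⟩ : ∃ n, q₁.coeff n ≠ 0 := by
      by_contra hcon
      push Not at hcon
      exact hq1 (Polynomial.ext (by simpa using hcon))
    have hco : ∀ m, j (p₁.coeff m) = ⟨s, hsL⟩ * j (q₁.coeff m) := by
      intro m
      have := congrArg (fun F => F.coeff m) hW
      simp only [W, coeff_sub, coeff_map, coeff_C_mul, coeff_zero] at this
      exact sub_eq_zero.mp this
    have hjn : j (q₁.coeff n) ≠ 0 := by
      intro h0
      exact hn (hjinj (by rw [h0, map_zero]))
    have hsj : (⟨s, hsL⟩ : imF σ v) = j (p₁.coeff n / q₁.coeff n) := by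
      rw [map_div₀, eq_div_iff hjn, hco n]
    refine hlin (p₁.coeff n / q₁.coeff n) ?_
    rw [hp, hq']
    have : p₁ = C (p₁.coeff n / q₁.coeff n) * q₁ := by
      ext m
      rw [coeff_C_mul]
      apply hjinj
      rw [hco m, hsj, map_mul]
    conv_lhs => rw [this]
    ring
  have hWt : aeval t W = 0 := by
    simp only [W, map_sub, map_mul, aeval_C]
    rw [aeval_def, aeval_def, eval₂_map, eval₂_map]
    have e1 : (algebraMap (imF σ v) (resF v)).comp j = ValD_iota hv := rfl
    rw [e1, ← hrel3]
    exact sub_self _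
  have hint : IsIntegral (imF σ v) t := by
    rw [← isAlgebraic_iff_isIntegral]
    exact ⟨W, hW0, hWt⟩
  -- the residue field is generated by `t`
  have htop : IntermediateField.adjoin (imF σ v) {t} = ⊤ := by
    rw [eq_top_iff]
    intro y _
    have := ValD_top hv hc h ht (IntermediateField.adjoin (imF σ v) {t}).toSubfield
      (fun x => (IntermediateField.adjoin (imF σ v) {t}).algebraMap_mem ⟨_, ValD_iota_mem hv x⟩)
      (IntermediateField.mem_adjoin_simple_self _ t) y
    exact this
  unfold locDeg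
  have h1 := IntermediateField.adjoin.finrank hint
  rw [htop, IntermediateField.finrank_top'] at h1
  rw [h1]
  refine le_trans ?_ hWdeg
  exact natDegree_le_natDegree (minpoly.degree_le_of_ne_zero _ t hW0 hWt)

end PoolBerk
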