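import Pool.Agent.H.MP_db48a2_an.Bk.RC

/-!
# Affine substitution
-/

namespace PoolBerk

open Polynomial Metric

variable {K : Type*} [NontriviallyNormedField K] [IsUltrametricDist K]

theorem aff_add (a c : K) (F G : K[X]) : aff a c (F + G) = aff a c F + aff a c G := by
  simp [aff]

theorem aff_sub (a c : K) (F G : K[X]) : aff a c (F - G) = aff a c F - aff a c G := by
  simp [aff]

theorem aff_mul (a c : K) (F G : K[X]) : aff a c (F * G) = aff a c F * aff a c G := by
  simp [aff]

theorem aff_C (a c b : K) : aff a c (C b) = C b := by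
  simp [aff]

theorem aff_X (a c : K) : aff a c X = C a + C c * X := by
  simp [aff]

theorem aff_eq_zero_iff {a c : K} (hc : c ≠ 0) (F : K[X]) : aff a c F = 0 ↔ F = 0 := by
  constructor
  · intro h
    rcases comp_eq_zero_iff.1 h with h1 | h1
    · exact h1
    · exfalso
      have h2 := congrArg (fun p : K[X] => p.coeff 1) h1.2
      simp at h2
      exact hc h2
  · intro h
    rw [h, aff, zero_comp]

/-- Chain rule. -/
theorem derivative_aff (a c : K) (F : K[X]) : derivative (aff a c F) = C c * aff a c (derivative F) := by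
  rw [aff, derivative_comp, aff]
  simp

theorem aff_cnt_aux {F : K[X]} {a c : K} (hc : c ≠ 0) (S T : Set K)
    (h : ∀ x, c * x + a ∈ S ↔ x ∈ T) :
    cnt F.roots S = cnt (aff a c F).roots T := by
  classical
  have h1 : (aff a c F).roots.map (fun x => c * x + a) = F.roots := by
    have h2 := map_roots_comp_C_mul_X_add_C F c a (IsUnit.mk0 c hc)
    rwa [add_comm (C c * X) (C a)] at h2
  rw [← h1, cnt, cnt, Multiset.countP_map, Multiset.countP_eq_card_filter]
  congr 1
  refine Multiset.filter_congr fun x _ => ?_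
  exact h x

/-- Transfer of the number of roots to the unit ball. -/
theorem cnt_aff_ball {F : K[X]} (hF : F ≠ 0) {a c : K} (hc : c ≠ 0) (z : K) :
    cnt F.roots (ball z ‖c‖) = cnt (aff a c F).roots (ball ((z - a) / c) 1) := by
  refine aff_cnt_aux hc _ _ fun x => ?_
  have hc' : 0 < ‖c‖ := norm_pos_iff.2 hc
  rw [mem_ball_iff_norm, mem_ball_iff_norm]
  have e : c * x + a - z = c * (x - (z - a) / c) := by
    field_simp
    ring
  rw [e, norm_mul]
  constructor
  · intro h
    exact lt_of_mul_lt_mul_left (by rwa [mul_one]) hc'.le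
  · intro h
    have h2 := mul_lt_mul_of_pos_left h hc'
    rwa [mul_one] at h2

theorem cnt_aff_closedBall {F : K[X]} (hF : F ≠ 0) {a c : K} (hc : c ≠ 0) :
    cnt F.roots (closedBall a ‖c‖) = cnt (aff a c F).roots (closedBall 0 1) := by
  refine aff_cnt_aux hc _ _ fun x => ?_
  have hc' : 0 < ‖c‖ := norm_pos_iff.2 hc
  rw [mem_closedBall_iff_norm, mem_closedBall_iff_norm, add_sub_cancel_right, sub_zero, norm_mul]
  constructor
  · intro h
    exact le_of_mul_le_mul_left (by rwa [mul_one]) hc'
  · intro h
    have h2 := mul_le_mul_of_nonneg_left h hc'.le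
    rwa [mul_one] at h2

/-- Root counting by reduction in a general ball. -/
theorem cnt_ball_red [IsAlgClosed K] {F : K[X]} {a c e : K} (hc : c ≠ 0) (he : e ≠ 0)
    (hF : Intg (C e * aff a c F)) (h : redP (C e * aff a c F) ≠ 0) {z : K}
    (hz : z ∈ closedBall a ‖c‖) :
    cnt F.roots (ball z ‖c‖) = (redP (C e * aff a c F)).rootMultiplicity (red ((z - a) / c)) := by
  have hF0 : F ≠ 0 := by
    intro h0
    apply h
    rw [h0, aff, zero_comp, mul_zero, redP_eq_zero_iff]
    · intro n
      rw [coeff_zero, norm_zero]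
      exact zero_lt_one
    · intro n
      rw [coeff_zero, norm_zero]
      exact zero_le_one
  have hw : ‖(z - a) / c‖ ≤ 1 := by
    rw [norm_div]
    exact div_le_one_of_le₀ (mem_closedBall_iff_norm.1 hz) (norm_nonneg _)
  rw [cnt_aff_ball hF0 hc z, ← cnt_ball_one hF h hw, roots_C_mul _ he]

theorem cnt_closedBall_red [IsAlgClosed K] {F : K[X]} {a c e : K} (hc : c ≠ 0) (he : e ≠ 0)
    (hF : Intg (C e * aff a c F)) (h : redP (C e * aff a c F) ≠ 0) :
    cnt F.roots (closedBall a ‖c‖) = (redP (C e * aff a c F)).natDegree := by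
  have hF0 : F ≠ 0 := by
    intro h0
    apply h
    rw [h0, aff, zero_comp, mul_zero, redP_eq_zero_iff]
    · intro n
      rw [coeff_zero, norm_zero]
      exact zero_lt_one
    · intro n
      rw [coeff_zero, norm_zero]
      exact zero_le_one
  rw [cnt_aff_closedBall hF0 hc, ← cnt_closedBall_one hF h, roots_C_mul _ he]

end PoolBerk
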