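import Pool.Agent.H.MP_db48a2_an.Bk.GnA
import Pool.Agent.H.MP_db48a2_an.Bk.Aff

/-!
# Gauss norms and reduction
-/

namespace PoolBerk

open Polynomial Metric

variable {K : Type*} [NontriviallyNormedField K] [IsUltrametricDist K]

open Classical in
/-- the normalising factor of a linear polynomial -/
noncomputable def GnB_m (a c α : K) : K := if ‖a - α‖ ≤ ‖c‖ then c else a - α

omit [IsUltrametricDist K] in
theorem GnB_norm_m (a c α : K) : ‖GnB_m a c α‖ = max ‖c‖ ‖a - α‖ := by
  unfold GnB_m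
  split_ifs with h
  · rw [max_eq_left h]
  · rw [max_eq_right (le_of_lt (not_le.mp h))]

omit [IsUltrametricDist K] in
theorem GnB_m_ne {a c α : K} (hc : c ≠ 0) : GnB_m a c α ≠ 0 := by
  rw [← norm_pos_iff, GnB_norm_m]
  exact lt_max_of_lt_left (norm_pos_iff.mpr hc)

/-- the normalised linear polynomial -/
noncomputable def GnB_g (a c α : K) : K[X] :=
  C ((a - α) / GnB_m a c α) + C (c / GnB_m a c α) * X

omit [IsUltrametricDist K] in
theorem GnB_fact {a c α : K} (hc : c ≠ 0) :
    C a + C c * X - C α = C (GnB_m a c α) * GnB_g a c α := by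
  have h := GnB_m_ne (a := a) (α := α) hc
  unfold GnB_g
  rw [mul_add, ← mul_assoc, ← C_mul, ← C_mul, mul_div_cancel₀ _ h, mul_div_cancel₀ _ h, C_sub]
  ring

theorem GnB_intg {a c α : K} (hc : c ≠ 0) : Intg (GnB_g a c α) ∧ redP (GnB_g a c α) ≠ 0 := by
  have hm := GnB_m_ne (a := a) (α := α) hc
  have hmp : 0 < ‖GnB_m a c α‖ := norm_pos_iff.mpr hm
  have h1 : ‖(a - α) / GnB_m a c α‖ ≤ 1 := by
    rw [norm_div, div_le_one hmp, GnB_norm_m]
    exact le_max_right _ _
  have h2 : ‖c / GnB_m a c α‖ ≤ 1 := by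
    rw [norm_div, div_le_one hmp, GnB_norm_m]
    exact le_max_left _ _
  have hI : Intg (GnB_g a c α) := (Intg.const h1).add ((Intg.const h2).mul Intg.var)
  refine ⟨hI, ?_⟩
  intro h0
  rw [redP_eq_zero_iff hI] at h0
  have e0 : (GnB_g a c α).coeff 0 = (a - α) / GnB_m a c α := by
    simp [GnB_g]
  have e1 : (GnB_g a c α).coeff 1 = c / GnB_m a c α := by
    unfold GnB_g
    rw [coeff_add, coeff_C_mul, coeff_X_one, coeff_C]
    simp
  by_cases h : ‖a - α‖ ≤ ‖c‖
  · have h3 := h0 1
    rw [e1] at h3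
    have h4 : GnB_m a c α = c := by simp [GnB_m, h]
    rw [h4, div_self hc, norm_one] at h3
    exact lt_irrefl _ h3
  · have h3 := h0 0
    rw [e0] at h3
    have h4 : GnB_m a c α = a - α := by simp [GnB_m, h]
    have h5 : a - α ≠ 0 := by
      intro h6
      rw [h6, norm_zero] at h
      exact h (norm_nonneg _)
    rw [h4, div_self h5, norm_one] at h3
    exact lt_irrefl _ h3

omit [IsUltrametricDist K] in
theorem GnB_gn (F : K[X]) (a c : K) :
    gn F a ‖c‖ = ‖F.leadingCoeff * (F.roots.map (fun α => GnB_m a c α)).prod‖ := by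
  unfold gn
  rw [norm_mul]
  congr 1
  have h : ∀ s : Multiset K, ‖(s.map (fun α => GnB_m a c α)).prod‖ =
      (s.map (fun α => max ‖c‖ ‖a - α‖)).prod := by
    intro s
    induction s using Multiset.induction_on with
    | empty => simp
    | cons x s ih => simp only [Multiset.map_cons, Multiset.prod_cons, norm_mul, ih, GnB_norm_m]
  rw [h]

omit [IsUltrametricDist K] in
theorem GnB_aff [IsAlgClosed K] (F : K[X]) {a c : K} (hc : c ≠ 0) :
    aff a c F = C (F.leadingCoeff * (F.roots.map (fun α => GnB_m a c α)).prod) *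
      (F.roots.map (fun α => GnB_g a c α)).prod := by
  have h1 : C F.leadingCoeff * (F.roots.map fun a => X - C a).prod = F :=
    C_leadingCoeff_mul_prod_multiset_X_sub_C (IsAlgClosed.card_roots_eq_natDegree)
  have h2 : ∀ s : Multiset K, aff a c (s.map fun a => X - C a).prod =
      C ((s.map (fun α => GnB_m a c α)).prod) * (s.map (fun α => GnB_g a c α)).prod := by
    intro s
    induction s using Multiset.induction_on with
    | empty => simp [aff]
    | cons x s ih =>
      simp only [Multiset.map_cons, Multiset.prod_cons]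
      have h3 : aff a c ((X - C x) * (s.map fun a => X - C a).prod) =
          (C a + C c * X - C x) * aff a c ((s.map fun a => X - C a).prod) := by
        simp [aff]
      rw [h3, ih, GnB_fact hc, C_mul]
      ring
  conv_lhs => rw [← h1]
  have h4 : aff a c (C F.leadingCoeff * (F.roots.map fun a => X - C a).prod) =
      C F.leadingCoeff * aff a c ((F.roots.map fun a => X - C a).prod) := by
    simp [aff]
  rw [h4, h2, C_mul]
  ring

/-- Relation with the reduction.
Proof: `C e * aff a c F = C e * C lc * ∏ (C (a - α) + C c * X)` over the roots `α`; write each factor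
as `C m_α * (C ((a - α) / m_α) + C (c / m_α) * X)` with `m_α = c` if `‖a - α‖ ≤ ‖c‖` and
`m_α = a - α` otherwise, so `‖m_α‖ = max ‖c‖ ‖a - α‖`; the factors are integral with nonzero reduction,
and `‖e * lc * ∏ m_α‖ = ‖e‖ * gn F a ‖c‖ = 1`. -/
theorem gn_red [IsAlgClosed K] {F : K[X]} {a c e : K} (hc : c ≠ 0)
    (h : ‖e‖ * gn F a ‖c‖ = 1) : Intg (C e * aff a c F) ∧ redP (C e * aff a c F) ≠ 0 := by
  have h1 : C e * aff a c F =
      C (e * (F.leadingCoeff * (F.roots.map (fun α => GnB_m a c α)).prod)) *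
      (F.roots.map (fun α => GnB_g a c α)).prod := by
    rw [GnB_aff F hc]
    simp only [C_mul]
    ring
  set u := e * (F.leadingCoeff * (F.roots.map (fun α => GnB_m a c α)).prod) with hu
  have hnu : ‖u‖ = 1 := by
    rw [hu, norm_mul, ← GnB_gn, h]
  obtain ⟨g1, g2⟩ := redP_multiset_prod (F.roots.map (fun α => GnB_g a c α)) (by
    intro G hG
    obtain ⟨α, _, rfl⟩ := Multiset.mem_map.mp hG
    exact (GnB_intg hc).1)
  have hC : Intg (C u) := Intg.const (le_of_eq hnu)
  rw [h1]
  refine ⟨hC.mul g1, ?_⟩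
  rw [redP_mul hC g1, redP_C, g2]
  apply mul_ne_zero
  · rw [Ne, C_eq_zero, red_eq_zero_iff (le_of_eq hnu), hnu]
    exact lt_irrefl _
  · apply Multiset.prod_ne_zero
    intro h0
    obtain ⟨G, hG, hG0⟩ := Multiset.mem_map.mp h0
    obtain ⟨α, _, rfl⟩ := Multiset.mem_map.mp hG
    exact (GnB_intg hc).2 hG0

/-- The Gauss norm at a radius in the value group is a norm. -/
theorem gn_isRad {F : K[X]} (hF : F ≠ 0) (a : K) {r : ℝ} (hr : IsRad K r) :
    IsRad K (gn F a r) := by
  obtain ⟨c, hc, rfl⟩ := hr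
  refine ⟨F.leadingCoeff * (F.roots.map (fun α => GnB_m a c α)).prod, ?_, (GnB_gn F a c).symm⟩
  apply mul_ne_zero (leadingCoeff_ne_zero.mpr hF)
  apply Multiset.prod_ne_zero
  intro h0
  obtain ⟨α, _, h1⟩ := Multiset.mem_map.mp h0
  exact GnB_m_ne hc h1

end PoolBerk
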