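import Mathlib

/-!
# Counting, radii, reduction, points of the Berkovich line (definitions)
-/

namespace PoolBerk

open Polynomial Metric

open scoped NNReal

/-- Number of elements of a multiset, with multiplicity, which lie in a set. -/
noncomputable def cnt {K : Type*} (F : Multiset K) (S : Set K) : ℕ := by
  classical exact F.countP (fun x => x ∈ S)

section Field

variable {K : Type*} [NontriviallyNormedField K] [IsUltrametricDist K]

/-- The real number `r` is the norm of a nonzero element. -/
def IsRad (K : Type*) [NontriviallyNormedField K] (r : ℝ) : Prop := ∃ c : K, c ≠ 0 ∧ ‖c‖ = r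

/-- Ring of integers of `K`. -/
noncomputable abbrev OK (K : Type*) [NontriviallyNormedField K] [IsUltrametricDist K] : ValuationSubring K :=
  (NormedField.valuation (K := K)).valuationSubring

/-- Residue field of `K`. -/
noncomputable abbrev kK (K : Type*) [NontriviallyNormedField K] [IsUltrametricDist K] : Type _ :=
  IsLocalRing.ResidueField (OK K)

/-- Reduction of an element of norm at most one (zero otherwise). -/
noncomputable def red (x : K) : kK K := by
  classical exact if h : x ∈ OK K then IsLocalRing.residue (OK K) ⟨x, h⟩ else 0

/-- All coefficients have norm at most one. -/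
def Intg (F : K[X]) : Prop := ∀ n, ‖F.coeff n‖ ≤ 1

/-- Coefficientwise reduction of a polynomial. -/
noncomputable def redP (F : K[X]) : (kK K)[X] :=
  ∑ n ∈ Finset.range (F.natDegree + 1), monomial n (red (F.coeff n))

/-- The affine substitution `F (a + c X)`. -/
noncomputable def aff (a c : K) (F : K[X]) : K[X] := F.comp (C a + C c * X)

end Field

section Maps

variable {K : Type*} [Field K]

/-- Degree of a rational function. -/
noncomputable def rdeg (g : RatFunc K) : ℕ := max g.num.natDegree g.denom.natDegree

end Maps

section Berk

variable {K : Type*} [NontriviallyNormedField K] [IsUltrametricDist K]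

/-- Points of the Berkovich line outside of `ℙ¹(K)`: the absolute values on `K(T)` which extend the
norm of `K`. -/
def HPt (v : Valuation (RatFunc K) ℝ≥0) : Prop := ∀ a : K, v (algebraMap K (RatFunc K) a) = ‖a‖₊

/-- The residue field of `K(T)` at the point `v`. -/
abbrev resF (v : Valuation (RatFunc K) ℝ≥0) : Type _ := IsLocalRing.ResidueField v.valuationSubring

/-- The residue field of the subfield `σ (K(T))`, as a subfield of the residue field at `v`. -/
noncomputable def imF (σ : RatFunc K →ₐ[K] RatFunc K) (v : Valuation (RatFunc K) ℝ≥0) :
    Subfield (resF v) :=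
  Subfield.closure {x | ∃ f : v.valuationSubring, (f : RatFunc K) ∈ Set.range σ ∧
    IsLocalRing.residue v.valuationSubring f = x}

/-- Local degree at `v` (residue degree). -/
noncomputable def locDeg (σ : RatFunc K →ₐ[K] RatFunc K) (v : Valuation (RatFunc K) ℝ≥0) : ℕ :=
  Module.finrank (imF σ v) (resF v)

/-- Repelling fixed points outside of `ℙ¹(K)`. -/
def RFixH (σ : RatFunc K →ₐ[K] RatFunc K) : Set (Valuation (RatFunc K) ℝ≥0) :=
  {v | HPt v ∧ (∀ f, v (σ f) = v f) ∧ 2 ≤ locDeg σ v}

end Berk

end PoolBerk
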