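import Pool.Agent.H.MP_db48a2_an.Bk.CntA

/-!
# Trichotomies for balls, radii
-/

namespace PoolBerk

open Polynomial Metric

variable {K : Type*} [NontriviallyNormedField K] [IsUltrametricDist K]

/-- Between two radii there is the norm of an element.  (Take a square root of the product.) -/
theorem exists_between_rad [IsAlgClosed K] {r s : ℝ} (hr : IsRad K r) (hs : IsRad K s)
    (h : r < s) : ∃ c : K, r < ‖c‖ ∧ ‖c‖ < s := by
  obtain ⟨c1, h1, h2⟩ := hr
  obtain ⟨c2, h3, h4⟩ := hs
  obtain ⟨c, hc⟩ := IsAlgClosed.exists_pow_nat_eq (c1 * c2) (n := 2) (by norm_num)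
  have hr0 : 0 < r := by
    rw [← h2]
    exact norm_pos_iff.mpr h1
  have hn : ‖c‖ ^ 2 = r * s := by
    rw [← norm_pow, hc, norm_mul, h2, h4]
  have hc0 := norm_nonneg c
  refine ⟨c, ?_, ?_⟩
  · by_contra hcon
    have hcon' : ‖c‖ ≤ r := not_lt.mp hcon
    nlinarith
  · by_contra hcon
    have hcon' : s ≤ ‖c‖ := not_lt.mp hcon
    nlinarith

/-- If an open ball is contained in a closed ball then so does its radius (both radii being norms
of nonzero elements). -/
theorem rad_le_of_ball_subset [IsAlgClosed K] {z a : K} {r s : ℝ} (hr : IsRad K r)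
    (hs : IsRad K s) (h : ball z r ⊆ closedBall a s) : r ≤ s := by
  by_contra hcon
  have hsr : s < r := not_le.mp hcon
  obtain ⟨c, hc1, hc2⟩ := exists_between_rad hs hr hsr
  have hr0 : 0 < r := lt_of_le_of_lt (norm_nonneg c) hc2
  have h1 : z ∈ closedBall a s := h (mem_ball_self hr0)
  have h2 : z + c ∈ closedBall a s := by
    apply h
    rw [mem_ball, dist_eq_norm, add_sub_cancel_left]
    exact hc2
  rw [mem_closedBall] at h1 h2
  have h3 := dist_triangle_max (z + c) a z
  rw [dist_eq_norm (z + c) z, add_sub_cancel_left, dist_comm a z] at h3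
  have h4 : max (dist (z + c) a) (dist z a) ≤ s := max_le h2 h1
  linarith

/-- Closed balls with the same points have the same radius. -/
theorem rad_le_of_closedBall_subset {z a : K} {r s : ℝ} (hr : IsRad K r)
    (h : closedBall z r ⊆ closedBall a s) : r ≤ s := by
  obtain ⟨c, hc0, hc⟩ := hr
  have hr0 : 0 ≤ r := by
    rw [← hc]
    exact norm_nonneg c
  have h1 : z ∈ closedBall a s := h (mem_closedBall_self hr0)
  have h2 : z + c ∈ closedBall a s := by
    apply h
    rw [mem_closedBall, dist_eq_norm, add_sub_cancel_left]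
    exact hc.le
  rw [mem_closedBall] at h1 h2
  have h3 := dist_triangle_max (z + c) a z
  rw [dist_eq_norm (z + c) z, add_sub_cancel_left, dist_comm a z] at h3
  have h4 : max (dist (z + c) a) (dist z a) ≤ s := max_le h2 h1
  linarith

/-- A closed ball with a radius contained in an open ball has strictly smaller radius. -/
theorem rad_lt_of_closedBall_subset_ball {z a : K} {r s : ℝ} (hr : IsRad K r)
    (h : closedBall z r ⊆ ball a s) : r < s := by
  obtain ⟨c, hc0, hc⟩ := hr
  have hr0 : 0 ≤ r := by
    rw [← hc]
    exact norm_nonneg c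
  have h1 : z ∈ ball a s := h (mem_closedBall_self hr0)
  have h2 : z + c ∈ ball a s := by
    apply h
    rw [mem_closedBall, dist_eq_norm, add_sub_cancel_left]
    exact hc.le
  rw [mem_ball] at h1 h2
  have h3 := dist_triangle_max (z + c) a z
  rw [dist_eq_norm (z + c) z, add_sub_cancel_left, dist_comm a z] at h3
  have h4 : max (dist (z + c) a) (dist z a) < s := max_lt h2 h1
  linarith

/-- An open ball and a closed ball are nested or disjoint. -/
theorem ball_closedBall_trichotomy (z a : K) (r s : ℝ) :
    ball z r ⊆ closedBall a s ∨ closedBall a s ⊆ ball z r ∨ Disjoint (ball z r) (closedBall a s) := by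
  by_cases hd : Disjoint (ball z r) (closedBall a s)
  · exact Or.inr (Or.inr hd)
  · obtain ⟨x, hx1, hx2⟩ := Set.not_disjoint_iff.mp hd
    rw [IsUltrametricDist.ball_eq_of_mem hx1, IsUltrametricDist.closedBall_eq_of_mem hx2]
    rcases le_or_gt r s with hrs | hrs
    · exact Or.inl ((ball_subset_ball hrs).trans ball_subset_closedBall)
    · exact Or.inr (Or.inl (closedBall_subset_ball hrs))

/-- Open balls are nested or disjoint. -/
theorem ball_ball_trichotomy (z a : K) (r s : ℝ) :
    ball z r ⊆ ball a s ∨ ball a s ⊆ ball z r ∨ Disjoint (ball z r) (ball a s) :=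
  IsUltrametricDist.ball_subset_trichotomy z a r s

/-- Closed balls are nested or disjoint. -/
theorem closedBall_closedBall_trichotomy (z a : K) (r s : ℝ) :
    closedBall z r ⊆ closedBall a s ∨ closedBall a s ⊆ closedBall z r ∨
      Disjoint (closedBall z r) (closedBall a s) :=
  IsUltrametricDist.closedBall_subset_trichotomy z a r s

theorem ball_eq_ball_of_dist_lt {z w : K} {r : ℝ} (h : ‖z - w‖ < r) : ball z r = ball w r := by
  have h1 : z ∈ ball w r := by
    rw [mem_ball, dist_eq_norm]
    exact h
  exact (IsUltrametricDist.ball_eq_of_mem h1).symm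

theorem ball_disjoint_of_le {z w : K} {r : ℝ} (h : r ≤ ‖z - w‖) :
    Disjoint (ball z r) (ball w r) := by
  rw [Set.disjoint_left]
  intro x hx1 hx2
  rw [mem_ball] at hx1 hx2
  have h3 := dist_triangle_max z x w
  rw [dist_comm z x, dist_eq_norm z w] at h3
  have h4 : max (dist x z) (dist x w) < r := max_lt hx1 hx2
  linarith

end PoolBerk
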