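import Pool.Agent.H.MP_db48a2_an.Bk.CntA

/-!
# Gauss norms through roots
-/

namespace PoolBerk

open Polynomial Metric

variable {K : Type*} [NontriviallyNormedField K] [IsUltrametricDist K]

/-- Gauss norm of `F` at the closed ball `closedBall a r`, through the roots of `F`. -/
noncomputable def gn (F : K[X]) (a : K) (r : ℝ) : ℝ :=
  ‖F.leadingCoeff‖ * (F.roots.map (fun α => max r ‖a - α‖)).prod

omit [IsUltrametricDist K] in
private theorem GnA_prod_pos (s : Multiset K) (a : K) {r : ℝ} (hr : 0 < r) :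
    0 < (s.map (fun α => max r ‖a - α‖)).prod := by
  induction s using Multiset.induction_on with
  | empty => simp
  | cons α s ih =>
    rw [Multiset.map_cons, Multiset.prod_cons]
    exact mul_pos (lt_max_of_lt_left hr) ih

omit [IsUltrametricDist K] in
private theorem GnA_prod_nonneg (s : Multiset K) (a : K) {r : ℝ} (hr : 0 ≤ r) :
    0 ≤ (s.map (fun α => max r ‖a - α‖)).prod := by
  induction s using Multiset.induction_on with
  | empty => simp
  | cons α s ih =>
    rw [Multiset.map_cons, Multiset.prod_cons]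
    exact mul_nonneg (le_max_of_le_left hr) ih

private theorem GnA_cnt_cons_pos {α : K} (s : Multiset K) {S : Set K} (h : α ∈ S) :
    cnt (α ::ₘ s) S = cnt s S + 1 := by
  classical
  unfold cnt
  exact Multiset.countP_cons_of_pos s h

private theorem GnA_cnt_cons_neg {α : K} (s : Multiset K) {S : Set K} (h : α ∉ S) :
    cnt (α ::ₘ s) S = cnt s S := by
  classical
  unfold cnt
  exact Multiset.countP_cons_of_neg s h

theorem gn_pos {F : K[X]} (hF : F ≠ 0) (a : K) {r : ℝ} (hr : 0 < r) : 0 < gn F a r :=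
  mul_pos (norm_pos_iff.2 (leadingCoeff_ne_zero.2 hF)) (GnA_prod_pos _ a hr)

theorem gn_nonneg (F : K[X]) (a : K) {r : ℝ} (hr : 0 ≤ r) : 0 ≤ gn F a r :=
  mul_nonneg (norm_nonneg _) (GnA_prod_nonneg _ a hr)

private theorem GnA_max_le {a b α : K} {r : ℝ} (h : ‖a - b‖ ≤ r) :
    max r ‖a - α‖ ≤ max r ‖b - α‖ := by
  refine max_le (le_max_left _ _) ?_
  have h1 : a - α = (a - b) + (b - α) := by ring
  rw [h1]
  refine (IsUltrametricDist.norm_add_le_max _ _).trans ?_
  exact max_le_max h le_rfl

/-- Change of centre. -/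
theorem gn_congr (F : K[X]) {a b : K} {r : ℝ} (h : ‖a - b‖ ≤ r) : gn F a r = gn F b r := by
  unfold gn
  congr 2
  refine Multiset.map_congr rfl fun α _ => ?_
  refine le_antisymm (GnA_max_le h) (GnA_max_le ?_)
  rwa [norm_sub_rev]

theorem gn_mono (F : K[X]) (a : K) {r s : ℝ} (hr : 0 ≤ r) (h : r ≤ s) : gn F a r ≤ gn F a s := by
  refine mul_le_mul_of_nonneg_left ?_ (norm_nonneg _)
  generalize F.roots = m
  induction m using Multiset.induction_on with
  | empty => simp
  | cons α m ih =>
    rw [Multiset.map_cons, Multiset.prod_cons, Multiset.map_cons, Multiset.prod_cons]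
    exact mul_le_mul (max_le_max h le_rfl) ih (GnA_prod_nonneg _ a hr)
      (le_max_of_le_left (hr.trans h))

theorem gn_continuous (F : K[X]) (a : K) : Continuous (fun r => gn F a r) := by
  unfold gn
  refine continuous_const.mul ?_
  exact continuous_multiset_prod (f := fun (α : K) (r : ℝ) => max r ‖a - α‖) F.roots
    fun α _ => continuous_id.max continuous_const

/-- If no root is closer to `a` than `r` then the Gauss norm is the norm of the value. -/
theorem gn_eq_norm_eval [IsAlgClosed K] (F : K[X]) (a : K) {r : ℝ}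
    (h : ∀ α ∈ F.roots, r ≤ ‖a - α‖) : gn F a r = ‖F.eval a‖ := by
  rw [(IsAlgClosed.splits F).eval_eq_prod_roots a, norm_mul, gn]
  congr 1
  revert h
  generalize F.roots = m
  intro h
  induction m using Multiset.induction_on with
  | empty => simp
  | cons α m ih =>
    rw [Multiset.map_cons, Multiset.prod_cons, Multiset.map_cons, Multiset.prod_cons, norm_mul,
      ih fun x hx => h x (Multiset.mem_cons_of_mem hx),
      max_eq_right (h α (Multiset.mem_cons_self α m))]

theorem gn_zero_rad [IsAlgClosed K] (F : K[X]) (a : K) : gn F a 0 = ‖F.eval a‖ :=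
  gn_eq_norm_eval F a (fun _ _ => norm_nonneg _)

/-- Value of the Gauss norm in terms of the number of roots in the open ball: there is `A ≠ 0` in `K`
with `gn F a r = ‖A‖ * r ^ (number of roots in ball a r)`. -/
theorem gn_eq_open {F : K[X]} (hF : F ≠ 0) (a : K) {r : ℝ} (hr : 0 < r) :
    ∃ A : K, A ≠ 0 ∧ gn F a r = ‖A‖ * r ^ cnt F.roots (ball a r) := by
  have key : ∀ m : Multiset K, ∃ A : K, A ≠ 0 ∧
      (m.map (fun α => max r ‖a - α‖)).prod = ‖A‖ * r ^ cnt m (ball a r) := by
    intro m
    induction m using Multiset.induction_on with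
    | empty => exact ⟨1, one_ne_zero, by simp [cnt_zero]⟩
    | cons α m ih =>
      obtain ⟨A, hA, h⟩ := ih
      rw [Multiset.map_cons, Multiset.prod_cons, h]
      rcases lt_or_ge ‖a - α‖ r with h1 | h1
      · have hmem : α ∈ ball a r := by
          rw [mem_ball, dist_eq_norm, norm_sub_rev]
          exact h1
        refine ⟨A, hA, ?_⟩
        rw [GnA_cnt_cons_pos m hmem, max_eq_left h1.le, pow_succ]
        ring
      · have hmem : α ∉ ball a r := by
          rw [mem_ball, dist_eq_norm, norm_sub_rev]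
          exact not_lt.2 h1
        refine ⟨(a - α) * A, mul_ne_zero (norm_pos_iff.1 (hr.trans_le h1)) hA, ?_⟩
        rw [GnA_cnt_cons_neg m hmem, max_eq_right h1, norm_mul]
        ring
  obtain ⟨A, hA, h⟩ := key F.roots
  refine ⟨F.leadingCoeff * A, mul_ne_zero (leadingCoeff_ne_zero.2 hF) hA, ?_⟩
  rw [gn, h, norm_mul]
  ring

/-- The same with the number of roots in the closed ball. -/
theorem gn_eq_closed {F : K[X]} (hF : F ≠ 0) (a : K) {r : ℝ} (hr : 0 < r) :
    ∃ A : K, A ≠ 0 ∧ gn F a r = ‖A‖ * r ^ cnt F.roots (closedBall a r) := by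
  have key : ∀ m : Multiset K, ∃ A : K, A ≠ 0 ∧
      (m.map (fun α => max r ‖a - α‖)).prod = ‖A‖ * r ^ cnt m (closedBall a r) := by
    intro m
    induction m using Multiset.induction_on with
    | empty => exact ⟨1, one_ne_zero, by simp [cnt_zero]⟩
    | cons α m ih =>
      obtain ⟨A, hA, h⟩ := ih
      rw [Multiset.map_cons, Multiset.prod_cons, h]
      rcases le_or_gt ‖a - α‖ r with h1 | h1
      · have hmem : α ∈ closedBall a r := by
          rw [mem_closedBall, dist_eq_norm, norm_sub_rev]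
          exact h1
        refine ⟨A, hA, ?_⟩
        rw [GnA_cnt_cons_pos m hmem, max_eq_left h1, pow_succ]
        ring
      · have hmem : α ∉ closedBall a r := by
          rw [mem_closedBall, dist_eq_norm, norm_sub_rev]
          exact not_le.2 h1
        refine ⟨(a - α) * A, mul_ne_zero (norm_pos_iff.1 (hr.trans h1)) hA, ?_⟩
        rw [GnA_cnt_cons_neg m hmem, max_eq_right h1.le, norm_mul]
        ring
  obtain ⟨A, hA, h⟩ := key F.roots
  refine ⟨F.leadingCoeff * A, mul_ne_zero (leadingCoeff_ne_zero.2 hF) hA, ?_⟩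
  rw [gn, h, norm_mul]
  ring

/-- Just below `r` the Gauss norm is monomial with exponent the number of roots in the open ball. -/
theorem gn_below (F : K[X]) (a : K) {r : ℝ} (hr : 0 < r) :
    ∃ r₀, 0 ≤ r₀ ∧ r₀ < r ∧ ∀ s, r₀ < s → s ≤ r →
      gn F a s = gn F a r * (s / r) ^ cnt F.roots (ball a r) := by
  have key : ∀ m : Multiset K, ∃ r₀, 0 ≤ r₀ ∧ r₀ < r ∧ ∀ s, r₀ < s → s ≤ r →
      (m.map (fun α => max s ‖a - α‖)).prod =
        (m.map (fun α => max r ‖a - α‖)).prod * (s / r) ^ cnt m (ball a r) := by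
    intro m
    induction m using Multiset.induction_on with
    | empty => exact ⟨0, le_rfl, hr, fun s _ _ => by simp [cnt_zero]⟩
    | cons α m ih =>
      obtain ⟨r₀, h0, h0r, h⟩ := ih
      rcases lt_or_ge ‖a - α‖ r with h1 | h1
      · have hmem : α ∈ ball a r := by
          rw [mem_ball, dist_eq_norm, norm_sub_rev]
          exact h1
        refine ⟨max r₀ ‖a - α‖, le_max_of_le_left h0, max_lt h0r h1, fun s hs hsr => ?_⟩
        have hs1 := (le_max_left _ _).trans_lt hs
        have hs2 := (le_max_right _ _).trans_lt hs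
        simp only [Multiset.map_cons, Multiset.prod_cons]
        rw [GnA_cnt_cons_pos m hmem, max_eq_left h1.le, max_eq_left hs2.le, h s hs1 hsr, pow_succ]
        field_simp
      · have hmem : α ∉ ball a r := by
          rw [mem_ball, dist_eq_norm, norm_sub_rev]
          exact not_lt.2 h1
        refine ⟨r₀, h0, h0r, fun s hs hsr => ?_⟩
        simp only [Multiset.map_cons, Multiset.prod_cons]
        rw [GnA_cnt_cons_neg m hmem, max_eq_right h1, max_eq_right (hsr.trans h1), h s hs hsr]
        ring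
  obtain ⟨r₀, h0, h0r, h⟩ := key F.roots
  refine ⟨r₀, h0, h0r, fun s hs hsr => ?_⟩
  rw [gn, gn, h s hs hsr]
  ring

/-- Just above `r` the Gauss norm is monomial with exponent the number of roots in the closed
ball. -/
theorem gn_above (F : K[X]) (a : K) {r : ℝ} (hr : 0 < r) :
    ∃ r₁, r < r₁ ∧ ∀ s, r ≤ s → s < r₁ →
      gn F a s = gn F a r * (s / r) ^ cnt F.roots (closedBall a r) := by
  have key : ∀ m : Multiset K, ∃ r₁, r < r₁ ∧ ∀ s, r ≤ s → s < r₁ →
      (m.map (fun α => max s ‖a - α‖)).prod =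
        (m.map (fun α => max r ‖a - α‖)).prod * (s / r) ^ cnt m (closedBall a r) := by
    intro m
    induction m using Multiset.induction_on with
    | empty => exact ⟨r + 1, by linarith, fun s _ _ => by simp [cnt_zero]⟩
    | cons α m ih =>
      obtain ⟨r₁, h1r, h⟩ := ih
      rcases le_or_gt ‖a - α‖ r with h1 | h1
      · have hmem : α ∈ closedBall a r := by
          rw [mem_closedBall, dist_eq_norm, norm_sub_rev]
          exact h1
        refine ⟨r₁, h1r, fun s hs hsr => ?_⟩
        simp only [Multiset.map_cons, Multiset.prod_cons]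
        rw [GnA_cnt_cons_pos m hmem, max_eq_left h1, max_eq_left (h1.trans hs), h s hs hsr,
          pow_succ]
        field_simp
      · have hmem : α ∉ closedBall a r := by
          rw [mem_closedBall, dist_eq_norm, norm_sub_rev]
          exact not_le.2 h1
        refine ⟨min r₁ ‖a - α‖, lt_min h1r h1, fun s hs hsr => ?_⟩
        have hs1 := hsr.trans_le (min_le_left _ _)
        have hs2 := hsr.trans_le (min_le_right _ _)
        simp only [Multiset.map_cons, Multiset.prod_cons]
        rw [GnA_cnt_cons_neg m hmem, max_eq_right h1.le, max_eq_right hs2.le, h s hs hs1]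
        ring
  obtain ⟨r₁, h1r, h⟩ := key F.roots
  refine ⟨r₁, h1r, fun s hs hsr => ?_⟩
  rw [gn, gn, h s hs hsr]
  ring

/-- For large radii the Gauss norm is `‖leadingCoeff‖ * r ^ natDegree`. -/
theorem gn_large [IsAlgClosed K] (F : K[X]) (a : K) :
    ∃ r₀ : ℝ, 0 < r₀ ∧ ∀ r, r₀ ≤ r → gn F a r = ‖F.leadingCoeff‖ * r ^ F.natDegree := by
  have key : ∀ m : Multiset K, ∃ r₀ : ℝ, 0 < r₀ ∧ ∀ r, r₀ ≤ r →
      (m.map (fun α => max r ‖a - α‖)).prod = r ^ Multiset.card m := by
    intro m
    induction m using Multiset.induction_on with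
    | empty => exact ⟨1, one_pos, fun r _ => by simp⟩
    | cons α m ih =>
      obtain ⟨r₀, h0, h⟩ := ih
      refine ⟨max r₀ ‖a - α‖, lt_max_of_lt_left h0, fun r hr => ?_⟩
      rw [Multiset.map_cons, Multiset.prod_cons, h r ((le_max_left _ _).trans hr),
        max_eq_left ((le_max_right _ _).trans hr), Multiset.card_cons, pow_succ, mul_comm]
  obtain ⟨r₀, h0, h⟩ := key F.roots
  refine ⟨r₀, h0, fun r hr => ?_⟩
  rw [gn, h r hr, (IsAlgClosed.splits F).natDegree_eq_card_roots]

private theorem GnA_isRad [IsAlgClosed K] {s : ℝ} (hs : 0 < s) {A B : K} (hA : A ≠ 0)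
    (hB : B ≠ 0) {m n : ℕ} (hmn : m < n) (h : ‖A‖ * s ^ m = ‖B‖ * s ^ n) : IsRad K s := by
  obtain ⟨c, hc⟩ := IsAlgClosed.exists_pow_nat_eq (A / B) (Nat.sub_pos_of_lt hmn)
  have hc0 : c ≠ 0 := by
    rintro rfl
    rw [zero_pow (Nat.sub_pos_of_lt hmn).ne'] at hc
    exact div_ne_zero hA hB hc.symm
  refine ⟨c, hc0, ?_⟩
  have h1 : ‖c‖ ^ (n - m) = s ^ (n - m) := by
    rw [← norm_pow, hc, norm_div]
    have hB' : ‖B‖ ≠ 0 := norm_ne_zero_iff.2 hB
    have hsm : s ^ m ≠ 0 := (pow_pos hs m).ne'
    rw [div_eq_iff hB']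
    apply mul_right_cancel₀ hsm
    rw [h, mul_assoc, mul_comm ‖B‖ (s ^ m), ← mul_assoc, ← pow_add, Nat.sub_add_cancel hmn.le,
      mul_comm]
  exact (pow_left_inj₀ (norm_nonneg c) hs.le (Nat.sub_pos_of_lt hmn).ne').1 h1

/-- If `s ^ m * ‖A‖ = s ^ n * ‖B‖` with `m ≠ n`, `A, B ≠ 0`, `s > 0` then `s` is a radius (`K`
algebraically closed: take a root of a quotient). -/
theorem isRad_of_pow_eq [IsAlgClosed K] {s : ℝ} (hs : 0 < s) {A B : K} (hA : A ≠ 0) (hB : B ≠ 0)
    {m n : ℕ} (hmn : m ≠ n) (h : ‖A‖ * s ^ m = ‖B‖ * s ^ n) : IsRad K s := by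
  rcases lt_or_gt_of_ne hmn with h1 | h1
  · exact GnA_isRad hs hA hB h1 h
  · exact GnA_isRad hs hB hA h1 h.symm

end PoolBerk
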