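import Pool.Agent.H.MP_db48a2_an.Bk.Aff

/-!
# Local counts of fixed points and poles
-/

namespace PoolBerk

open Polynomial Metric

variable {K : Type*} [NontriviallyNormedField K] [IsUltrametricDist K]

variable {P Q : K[X]} {a c e : K}

theorem LocF_identity (P Q : K[X]) (a c e : K) :
    C e * aff a c (P - X * Q)
      = C e * aff a c (P - C a * Q) - X * (C (e * c) * aff a c Q) := by
  rw [aff_sub, aff_sub, aff_mul, aff_mul, aff_X, aff_C, C_mul]
  ring

/-- Fixed points:
`C e * aff a c (P - X * Q) = C e * aff a c (P - C a * Q) - X * (C (e * c) * aff a c Q)`. -/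
theorem loc_fixed [IsAlgClosed K] (hc : c ≠ 0) (he : e ≠ 0)
    (hP : Intg (C e * aff a c (P - C a * Q))) (hQ : Intg (C (e * c) * aff a c Q))
    (hne : redP (C e * aff a c (P - C a * Q)) - X * redP (C (e * c) * aff a c Q) ≠ 0) :
    (∀ z ∈ closedBall a ‖c‖, cnt (P - X * Q).roots (ball z ‖c‖) =
      (redP (C e * aff a c (P - C a * Q)) -
        X * redP (C (e * c) * aff a c Q)).rootMultiplicity (red ((z - a) / c))) ∧
    cnt (P - X * Q).roots (closedBall a ‖c‖) =
      (redP (C e * aff a c (P - C a * Q)) - X * redP (C (e * c) * aff a c Q)).natDegree := by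
  have hX : Intg (X * (C (e * c) * aff a c Q)) := Intg.mul Intg.var hQ
  have hI : Intg (C e * aff a c (P - X * Q)) := by
    rw [LocF_identity]
    exact Intg.sub hP hX
  have hred : redP (C e * aff a c (P - X * Q))
      = redP (C e * aff a c (P - C a * Q)) - X * redP (C (e * c) * aff a c Q) := by
    rw [LocF_identity, redP_sub hP hX, redP_mul Intg.var hQ, redP_X]
  have hne' : redP (C e * aff a c (P - X * Q)) ≠ 0 := by
    rw [hred]; exact hne
  refine ⟨fun z hz => ?_, ?_⟩
  · rw [cnt_ball_red hc he hI hne' hz, hred]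
  · rw [cnt_closedBall_red hc he hI hne', hred]

/-- Poles. -/
theorem loc_pole [IsAlgClosed K] (hc : c ≠ 0) (he : e ≠ 0)
    (hQ : Intg (C (e * c) * aff a c Q)) (hne : redP (C (e * c) * aff a c Q) ≠ 0) :
    (∀ z ∈ closedBall a ‖c‖, cnt Q.roots (ball z ‖c‖) =
      (redP (C (e * c) * aff a c Q)).rootMultiplicity (red ((z - a) / c))) ∧
    cnt Q.roots (closedBall a ‖c‖) = (redP (C (e * c) * aff a c Q)).natDegree :=
  ⟨fun _ hz => cnt_ball_red hc (mul_ne_zero he hc) hQ hne hz,
    cnt_closedBall_red hc (mul_ne_zero he hc) hQ hne⟩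

end PoolBerk
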