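import Pool.Agent.H.MP_db48a2_an.Bk.RedB
import Pool.Agent.H.MP_db48a2_an.Bk.CntA

/-!
# Root counting by reduction
-/

namespace PoolBerk

open Polynomial Metric

variable {K : Type*} [NontriviallyNormedField K] [IsUltrametricDist K]

/-- Structure of the reduction of an integral polynomial with nonzero reduction:
`redP F = C u * ∏_{α root of F, ‖α‖ ≤ 1} (X - C (red α))`, `u ≠ 0`.
Proof: `F = C l * ∏ (X - C α)` over the roots (`K` algebraically closed).  Put
`e = l * ∏_{‖α‖ > 1} (-α)` and `G = ∏_{‖α‖ ≤ 1} (X - C α) * ∏_{‖α‖ > 1} (1 - C α⁻¹ * X)`, so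
`F = C e * G`; all factors of `G` are integral and their reductions are `X - C (red α)` and `1`
(`‖α⁻¹‖ < 1`), so `redP G = ∏_{‖α‖≤1} (X - C (red α)) ≠ 0`.  As `F = C e * G` is integral,
`‖e‖ ≤ 1` (`norm_le_one_of_intg_C_mul`), and `‖e‖ < 1` would give `redP F = 0`
(`redP_C_mul_eq_zero`).  So `‖e‖ = 1` and `redP F = C (red e) * redP G`. -/
theorem redP_eq_prod [IsAlgClosed K] {F : K[X]} (hF : Intg F) (h : redP F ≠ 0) :
    ∃ u : kK K, u ≠ 0 ∧ redP F =
      C u * ((F.roots.filter (fun α => ‖α‖ ≤ 1)).map (fun α => X - C (red α))).prod := by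
  classical
  set A : Multiset K := F.roots.filter (fun α => ‖α‖ ≤ 1) with hA
  set B : Multiset K := F.roots.filter (fun α => ¬ ‖α‖ ≤ 1) with hB
  have hAB : A + B = F.roots := Multiset.filter_add_not _ _
  have hFp : F = C F.leadingCoeff * (F.roots.map (fun α => X - C α)).prod :=
    (IsAlgClosed.splits F).eq_prod_roots
  have hBn : ∀ α ∈ B, 1 < ‖α‖ := by
    intro α hα
    have := (Multiset.mem_filter.1 hα).2
    exact not_le.1 this
  have hB2 : (B.map (fun α => X - C α)).prod
      = C (B.map (fun α => -α)).prod * (B.map (fun α => 1 - C α⁻¹ * X)).prod := by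
    have e1 : C (B.map (fun α => -α)).prod = (B.map (fun α => C (-α))).prod := by
      rw [← Multiset.prod_hom, Multiset.map_map]
      rfl
    rw [e1, ← Multiset.prod_map_mul]
    congr 1
    apply Multiset.map_congr rfl
    intro α hα
    have h0 : α ≠ 0 := by
      intro h0
      have := hBn α hα
      rw [h0, norm_zero] at this
      linarith
    have h1 : C (-α) * (C α⁻¹ * X) = -(X : K[X]) := by
      rw [← mul_assoc, ← C_mul, neg_mul, mul_inv_cancel₀ h0]
      simp
    rw [mul_sub, h1, mul_one, C_neg]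
    ring
  set s : Multiset K[X] := A.map (fun α => X - C α) + B.map (fun α => 1 - C α⁻¹ * X) with hs
  set e : K := F.leadingCoeff * (B.map (fun α => -α)).prod with he
  have hFG : F = C e * s.prod := by
    rw [hs, Multiset.prod_add, he, C_mul]
    conv_lhs => rw [hFp, ← hAB, Multiset.map_add, Multiset.prod_add, hB2]
    ring
  have hAi : ∀ α ∈ A, ‖α‖ ≤ 1 := fun α hα => (Multiset.mem_filter.1 hα).2
  have hBi : ∀ α ∈ B, ‖α⁻¹‖ < 1 := by
    intro α hα
    rw [norm_inv]
    exact inv_lt_one_of_one_lt₀ (hBn α hα)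
  have hone : Intg (1 : K[X]) := by
    have := Intg.const (K := K) (a := 1) (by simp)
    simpa using this
  have hsi : ∀ P ∈ s, Intg P := by
    intro P hP
    rcases Multiset.mem_add.1 hP with hP | hP
    · obtain ⟨α, hα, rfl⟩ := Multiset.mem_map.1 hP
      exact Intg.sub Intg.var (Intg.const (hAi α hα))
    · obtain ⟨α, hα, rfl⟩ := Multiset.mem_map.1 hP
      exact Intg.sub hone (Intg.mul (Intg.const (hBi α hα).le) Intg.var)
  obtain ⟨hGi, hGr⟩ := redP_multiset_prod s hsi
  have hGr2 : redP s.prod = (A.map (fun α => X - C (red α))).prod := by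
    rw [hGr, hs, Multiset.map_add, Multiset.prod_add, Multiset.map_map, Multiset.map_map]
    have e1 : (A.map (redP ∘ fun α => X - C α)) = A.map (fun α => X - C (red α)) := by
      apply Multiset.map_congr rfl
      intro α hα
      rw [Function.comp_apply, redP_sub Intg.var (Intg.const (hAi α hα)), redP_X, redP_C]
    have e2 : (B.map (redP ∘ fun α => 1 - C α⁻¹ * X)) = B.map (fun _ => 1) := by
      apply Multiset.map_congr rfl
      intro α hα
      have h1 : redP (1 : K[X]) = 1 := by
        have := redP_C (1 : K)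
        rw [red_one] at this
        simpa using this
      rw [Function.comp_apply,
        redP_sub hone (Intg.mul (Intg.const (hBi α hα).le) Intg.var), h1,
        redP_mul (Intg.const (hBi α hα).le) Intg.var, redP_C,
        (red_eq_zero_iff (hBi α hα).le).2 (hBi α hα)]
      simp
    rw [e1, e2]
    simp
  have hG0 : redP s.prod ≠ 0 := by
    rw [hGr2]
    exact (monic_multiset_prod_of_monic _ _ fun α _ => monic_X_sub_C _).ne_zero
  have he1 : ‖e‖ ≤ 1 := norm_le_one_of_intg_C_mul hGi hG0 (by rw [← hFG]; exact hF)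
  have he2 : ¬ ‖e‖ < 1 := by
    intro hlt
    apply h
    rw [hFG]
    exact (redP_C_mul_eq_zero hGi hlt).2
  refine ⟨red e, ?_, ?_⟩
  · intro h0
    exact he2 ((red_eq_zero_iff he1).1 h0)
  · rw [← hGr2]
    conv_lhs => rw [hFG]
    rw [redP_mul (Intg.const he1) hGi, redP_C]

theorem RC_cnt (F : Multiset K) (S : Set K) [DecidablePred (fun x => x ∈ S)] :
    cnt F S = Multiset.card (F.filter (fun x => x ∈ S)) := by
  classical
  rw [cnt, Multiset.countP_eq_card_filter]
  congr

/-- Root counting in open unit balls. -/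
theorem cnt_ball_one [IsAlgClosed K] {F : K[X]} (hF : Intg F) (h : redP F ≠ 0) {w : K}
    (hw : ‖w‖ ≤ 1) : cnt F.roots (ball w 1) = (redP F).rootMultiplicity (red w) := by
  classical
  obtain ⟨u, hu, hr⟩ := redP_eq_prod hF h
  have e1 : ((F.roots.filter (fun α => ‖α‖ ≤ 1)).map (fun α => X - C (red α))).prod
      = (((F.roots.filter (fun α => ‖α‖ ≤ 1)).map red).map (fun t => X - C t)).prod := by
    rw [Multiset.map_map]
    rfl
  rw [← count_roots, hr, roots_C_mul _ hu, e1, roots_multiset_prod_X_sub_C, Multiset.count_map,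
    RC_cnt, Multiset.filter_filter]
  congr 1
  apply Multiset.filter_congr
  intro α _
  rw [mem_ball, dist_eq_norm]
  constructor
  · intro hlt
    have hα : ‖α‖ ≤ 1 := by
      have h1 : ‖(α - w) + w‖ ≤ max ‖α - w‖ ‖w‖ := IsUltrametricDist.norm_add_le_max _ _
      rw [sub_add_cancel] at h1
      exact h1.trans (max_le hlt.le hw)
    refine ⟨?_, hα⟩
    rw [eq_comm, red_eq_iff hα hw]
    exact hlt
  · rintro ⟨h1, hα⟩
    rw [← red_eq_iff hα hw]
    exact h1.symm

/-- Root counting in the closed unit ball. -/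
theorem cnt_closedBall_one [IsAlgClosed K] {F : K[X]} (hF : Intg F) (h : redP F ≠ 0) :
    cnt F.roots (closedBall 0 1) = (redP F).natDegree := by
  classical
  obtain ⟨u, hu, hr⟩ := redP_eq_prod hF h
  have e1 : ((F.roots.filter (fun α => ‖α‖ ≤ 1)).map (fun α => X - C (red α))).prod
      = (((F.roots.filter (fun α => ‖α‖ ≤ 1)).map red).map (fun t => X - C t)).prod := by
    rw [Multiset.map_map]
    rfl
  rw [hr, natDegree_C_mul hu, e1, natDegree_multiset_prod_X_sub_C_eq_card, Multiset.card_map,
    RC_cnt]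
  congr 1
  apply Multiset.filter_congr
  intro α _
  rw [mem_closedBall, dist_zero_right]

end PoolBerk
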