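import Pool.Agent.H.MP_db48a2_an.Bk.Defs

/-!
# Reduction of elements
-/

namespace PoolBerk

open Polynomial Metric

variable {K : Type*} [NontriviallyNormedField K] [IsUltrametricDist K]

theorem mem_OK {x : K} : x ∈ OK K ↔ ‖x‖ ≤ 1 := by
  rw [Valuation.mem_valuationSubring_iff, NormedField.valuation_apply]
  exact ⟨fun h => h, fun h => h⟩

theorem RedA_coe (x : OK K) : red (x : K) = IsLocalRing.residue (OK K) x := by
  unfold red
  rw [dif_pos x.2]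

theorem red_zero : red (0 : K) = 0 := by
  have := RedA_coe (0 : OK K)
  rwa [map_zero] at this

theorem red_one : red (1 : K) = 1 := by
  have := RedA_coe (1 : OK K)
  rwa [map_one] at this

theorem red_add {x y : K} (hx : ‖x‖ ≤ 1) (hy : ‖y‖ ≤ 1) : red (x + y) = red x + red y := by
  have h := RedA_coe ((⟨x, mem_OK.mpr hx⟩ : OK K) + ⟨y, mem_OK.mpr hy⟩)
  rw [map_add, ← RedA_coe, ← RedA_coe] at h
  exact h

theorem red_sub {x y : K} (hx : ‖x‖ ≤ 1) (hy : ‖y‖ ≤ 1) : red (x - y) = red x - red y := by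
  have h := RedA_coe ((⟨x, mem_OK.mpr hx⟩ : OK K) - ⟨y, mem_OK.mpr hy⟩)
  rw [map_sub, ← RedA_coe, ← RedA_coe] at h
  exact h

theorem red_neg {x : K} (hx : ‖x‖ ≤ 1) : red (-x) = -red x := by
  have h := RedA_coe (-(⟨x, mem_OK.mpr hx⟩ : OK K))
  rw [map_neg, ← RedA_coe] at h
  exact h

theorem red_mul {x y : K} (hx : ‖x‖ ≤ 1) (hy : ‖y‖ ≤ 1) : red (x * y) = red x * red y := by
  have h := RedA_coe ((⟨x, mem_OK.mpr hx⟩ : OK K) * ⟨y, mem_OK.mpr hy⟩)
  rw [map_mul, ← RedA_coe, ← RedA_coe] at h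
  exact h

theorem red_eq_zero_iff {x : K} (hx : ‖x‖ ≤ 1) : red x = 0 ↔ ‖x‖ < 1 := by
  have h0 := RedA_coe (⟨x, mem_OK.mpr hx⟩ : OK K)
  change red x = _ at h0
  rw [h0, IsLocalRing.residue_eq_zero_iff, IsLocalRing.mem_maximalIdeal, mem_nonunits_iff]
  constructor
  · intro h
    by_contra hn
    have h1 : ‖x‖ = 1 := le_antisymm hx (not_lt.mp hn)
    apply h
    have hg0 : x ≠ 0 := by
      intro h0
      rw [h0, norm_zero] at h1
      exact zero_ne_one h1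
    refine IsUnit.of_mul_eq_one ⟨x⁻¹, mem_OK.mpr (by rw [norm_inv, h1, inv_one])⟩ ?_
    apply Subtype.ext
    exact mul_inv_cancel₀ hg0
  · intro h hu
    obtain ⟨u, hu⟩ := hu
    have h2 : x * (((u⁻¹ : (OK K)ˣ) : OK K) : K) = 1 := by
      have h2' := congrArg (Subtype.val) (u.mul_inv)
      rw [hu] at h2'
      exact h2'
    have h4 : ‖(((u⁻¹ : (OK K)ˣ) : OK K) : K)‖ ≤ 1 := mem_OK.mp ((u⁻¹ : (OK K)ˣ) : OK K).2
    have h3 := congrArg norm h2
    rw [norm_mul, norm_one] at h3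
    nlinarith [norm_nonneg x, norm_nonneg ((((u⁻¹ : (OK K)ˣ) : OK K) : K))]

theorem RedA_norm_sub_le (x y : K) : ‖x - y‖ ≤ max ‖x‖ ‖y‖ := by
  have h := IsUltrametricDist.norm_add_le_max x (-y)
  rwa [norm_neg, ← sub_eq_add_neg] at h

theorem red_eq_iff {x y : K} (hx : ‖x‖ ≤ 1) (hy : ‖y‖ ≤ 1) : red x = red y ↔ ‖x - y‖ < 1 := by
  have hxy : ‖x - y‖ ≤ 1 := (RedA_norm_sub_le x y).trans (max_le hx hy)
  rw [← red_eq_zero_iff hxy, red_sub hx hy, sub_eq_zero]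

theorem red_surj (t : kK K) : ∃ x : K, ‖x‖ ≤ 1 ∧ red x = t := by
  obtain ⟨y, rfl⟩ := IsLocalRing.residue_surjective t
  exact ⟨y, mem_OK.mp y.2, RedA_coe y⟩

theorem red_natCast (n : ℕ) : red (n : K) = (n : kK K) := by
  have h := RedA_coe ((n : OK K))
  rw [map_natCast] at h
  exact h

end PoolBerk
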