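import Pool.Agent.H.MP_db48a2_an.Bk.RedA

/-!
# Reduction of polynomials
-/

namespace PoolBerk

open Polynomial Metric

variable {K : Type*} [NontriviallyNormedField K] [IsUltrametricDist K]

theorem coeff_redP (F : K[X]) (n : ℕ) : (redP F).coeff n = red (F.coeff n) := by
  unfold redP
  rw [finset_sum_coeff]
  simp only [coeff_monomial]
  rw [Finset.sum_ite_eq' (Finset.range (F.natDegree + 1)) n]
  split_ifs with h
  · rfl
  · rw [Finset.mem_range, not_lt] at h
    rw [coeff_eq_zero_of_natDegree_lt (by omega), red_zero]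

theorem RedB_map (G' : (OK K)[X]) : Intg (G'.map (OK K).subtype) ∧
    redP (G'.map (OK K).subtype) = G'.map (IsLocalRing.residue (OK K)) := by
  constructor
  · intro n
    rw [coeff_map]
    exact mem_OK.mp (G'.coeff n).2
  · ext n
    rw [coeff_redP, coeff_map, coeff_map]
    exact RedA_coe _

theorem RedB_lift {G : K[X]} (hG : Intg G) :
    ∃ G' : (OK K)[X], G'.map (OK K).subtype = G ∧
      redP G = G'.map (IsLocalRing.residue (OK K)) := by
  have h1 : (∑ n ∈ Finset.range (G.natDegree + 1),
      monomial n (⟨G.coeff n, mem_OK.mpr (hG n)⟩ : OK K)).map (OK K).subtype = G := by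
    rw [Polynomial.map_sum]
    conv_rhs => rw [G.as_sum_range]
    refine Finset.sum_congr rfl fun n _ => ?_
    rw [Polynomial.map_monomial]
    rfl
  refine ⟨_, h1, ?_⟩
  have h2 := (RedB_map (∑ n ∈ Finset.range (G.natDegree + 1),
      monomial n (⟨G.coeff n, mem_OK.mpr (hG n)⟩ : OK K))).2
  rw [h1] at h2
  exact h2

theorem Intg.add {F G : K[X]} (hF : Intg F) (hG : Intg G) : Intg (F + G) := by
  intro n
  rw [coeff_add]
  exact (IsUltrametricDist.norm_add_le_max _ _).trans (max_le (hF n) (hG n))

theorem Intg.sub {F G : K[X]} (hF : Intg F) (hG : Intg G) : Intg (F - G) := by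
  intro n
  rw [coeff_sub]
  exact (RedA_norm_sub_le _ _).trans (max_le (hF n) (hG n))

theorem Intg.neg {F : K[X]} (hF : Intg F) : Intg (-F) := by
  intro n
  rw [coeff_neg, norm_neg]
  exact hF n

theorem Intg.mul {F G : K[X]} (hF : Intg F) (hG : Intg G) : Intg (F * G) := by
  obtain ⟨F', rfl, _⟩ := RedB_lift hF
  obtain ⟨G', rfl, _⟩ := RedB_lift hG
  rw [← Polynomial.map_mul]
  exact (RedB_map _).1

theorem Intg.const {a : K} (ha : ‖a‖ ≤ 1) : Intg (C a) := by
  intro n
  rw [coeff_C]
  split_ifs
  · exact ha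
  · rw [norm_zero]; exact zero_le_one

theorem Intg.var : Intg (X : K[X]) := by
  intro n
  rw [coeff_X]
  split_ifs
  · rw [norm_one]
  · rw [norm_zero]; exact zero_le_one

theorem Intg.derivative {F : K[X]} (hF : Intg F) : Intg (derivative F) := by
  intro n
  rw [coeff_derivative, norm_mul]
  have h1 : ‖((n : K) + 1)‖ ≤ 1 := by
    have := IsUltrametricDist.norm_natCast_le_one K (n + 1)
    rwa [Nat.cast_add, Nat.cast_one] at this
  calc ‖F.coeff (n + 1)‖ * ‖((n : K) + 1)‖ ≤ 1 * 1 :=
        mul_le_mul (hF _) h1 (norm_nonneg _) zero_le_one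
    _ = 1 := one_mul 1

theorem redP_add {F G : K[X]} (hF : Intg F) (hG : Intg G) : redP (F + G) = redP F + redP G := by
  ext n
  rw [coeff_redP, coeff_add, coeff_add, coeff_redP, coeff_redP, red_add (hF n) (hG n)]

theorem redP_sub {F G : K[X]} (hF : Intg F) (hG : Intg G) : redP (F - G) = redP F - redP G := by
  ext n
  rw [coeff_redP, coeff_sub, coeff_sub, coeff_redP, coeff_redP, red_sub (hF n) (hG n)]

theorem redP_mul {F G : K[X]} (hF : Intg F) (hG : Intg G) : redP (F * G) = redP F * redP G := by
  obtain ⟨F', rfl, h1⟩ := RedB_lift hF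
  obtain ⟨G', rfl, h2⟩ := RedB_lift hG
  rw [h1, h2, ← Polynomial.map_mul, ← Polynomial.map_mul]
  exact (RedB_map _).2

theorem redP_C (a : K) : redP (C a) = C (red a) := by
  ext n
  rw [coeff_redP, coeff_C, coeff_C]
  split_ifs
  · rfl
  · exact red_zero

theorem redP_X : redP (X : K[X]) = X := by
  ext n
  rw [coeff_redP, coeff_X, coeff_X]
  split_ifs
  · exact red_one
  · exact red_zero

theorem redP_derivative {F : K[X]} (hF : Intg F) : redP (derivative F) = derivative (redP F) := by
  ext n
  have h1 : ‖((n : K) + 1)‖ ≤ 1 := by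
    have := IsUltrametricDist.norm_natCast_le_one K (n + 1)
    rwa [Nat.cast_add, Nat.cast_one] at this
  rw [coeff_redP, coeff_derivative, coeff_derivative, coeff_redP, red_mul (hF _) h1]
  congr 1
  have := red_natCast (K := K) (n + 1)
  rwa [Nat.cast_add, Nat.cast_one, Nat.cast_add, Nat.cast_one] at this

theorem redP_eq_zero_iff {F : K[X]} (hF : Intg F) : redP F = 0 ↔ ∀ n, ‖F.coeff n‖ < 1 := by
  constructor
  · intro h n
    have := congrArg (fun G => G.coeff n) h
    simp only [coeff_redP, coeff_zero] at this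
    exact (red_eq_zero_iff (hF n)).mp this
  · intro h
    ext n
    rw [coeff_redP, coeff_zero]
    exact (red_eq_zero_iff (hF n)).mpr (h n)

/-- Reduction of a product over a finite multiset of integral polynomials. -/
theorem redP_multiset_prod (s : Multiset K[X]) (hs : ∀ F ∈ s, Intg F) :
    Intg s.prod ∧ redP s.prod = (s.map redP).prod := by
  induction s using Multiset.induction with
  | empty =>
    have h1 : (1 : K[X]) = C 1 := C_1.symm
    rw [Multiset.prod_zero, Multiset.map_zero, Multiset.prod_zero]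
    refine ⟨?_, ?_⟩
    · rw [h1]; exact Intg.const (by rw [norm_one])
    · rw [h1, redP_C, red_one, C_1]
  | cons F s ih =>
    have hF := hs F (Multiset.mem_cons_self F s)
    obtain ⟨h1, h2⟩ := ih (fun G hG => hs G (Multiset.mem_cons_of_mem hG))
    rw [Multiset.prod_cons, Multiset.map_cons, Multiset.prod_cons]
    exact ⟨hF.mul h1, by rw [redP_mul hF h1, h2]⟩

/-- A product of integral polynomials with nonzero reductions has nonzero reduction; hence if `F` is
integral and `redP F ≠ 0`, and `C a * F` is integral, then `‖a‖ ≤ 1`. -/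
theorem norm_le_one_of_intg_C_mul {F : K[X]} {a : K} (hF : Intg F) (h : redP F ≠ 0)
    (h' : Intg (C a * F)) : ‖a‖ ≤ 1 := by
  rw [Ne, redP_eq_zero_iff hF] at h
  push Not at h
  obtain ⟨n, hn⟩ := h
  have h1 : ‖F.coeff n‖ = 1 := le_antisymm (hF n) hn
  have h2 := h' n
  rwa [coeff_C_mul, norm_mul, h1, mul_one] at h2

/-- If `F` is integral, `‖a‖ < 1` then the reduction of `C a * F` vanishes. -/
theorem redP_C_mul_eq_zero {F : K[X]} {a : K} (hF : Intg F) (ha : ‖a‖ < 1) :
    Intg (C a * F) ∧ redP (C a * F) = 0 := by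
  have h1 : Intg (C a) := Intg.const ha.le
  refine ⟨h1.mul hF, ?_⟩
  rw [redP_mul h1 hF, redP_C, (red_eq_zero_iff ha.le).mpr ha, C_0, zero_mul]

/-- Normalisation of a pair of polynomials, not both zero. -/
theorem exists_normalize {F G : K[X]} (h : F ≠ 0 ∨ G ≠ 0) :
    ∃ e : K, e ≠ 0 ∧ Intg (C e * F) ∧ Intg (C e * G) ∧
      (redP (C e * F) ≠ 0 ∨ redP (C e * G) ≠ 0) := by
  classical
  let N := max F.natDegree G.natDegree
  let S : Finset K := (Finset.range (N + 1)).image F.coeff ∪ (Finset.range (N + 1)).image G.coeff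
  have hFS : ∀ n, F.coeff n ∈ S ∨ F.coeff n = 0 := by
    intro n
    by_cases hn : n < N + 1
    · left
      exact Finset.mem_union_left _ (Finset.mem_image_of_mem _ (Finset.mem_range.mpr hn))
    · right
      have : F.natDegree ≤ N := le_max_left _ _
      exact coeff_eq_zero_of_natDegree_lt (by omega)
  have hGS : ∀ n, G.coeff n ∈ S ∨ G.coeff n = 0 := by
    intro n
    by_cases hn : n < N + 1
    · left
      exact Finset.mem_union_right _ (Finset.mem_image_of_mem _ (Finset.mem_range.mpr hn))
    · right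
      have : G.natDegree ≤ N := le_max_right _ _
      exact coeff_eq_zero_of_natDegree_lt (by omega)
  have hne : S.Nonempty :=
    ⟨F.coeff 0, Finset.mem_union_left _ (Finset.mem_image_of_mem _ (by simp))⟩
  obtain ⟨u, huS, hu⟩ := Finset.exists_max_image S norm hne
  have hu0 : u ≠ 0 := by
    rintro rfl
    have hF0 : ∀ n, F.coeff n = 0 := by
      intro n
      rcases hFS n with h1 | h1
      · have := hu _ h1
        rw [norm_zero] at this
        exact norm_le_zero_iff.mp this
      · exact h1
    have hG0 : ∀ n, G.coeff n = 0 := by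
      intro n
      rcases hGS n with h1 | h1
      · have := hu _ h1
        rw [norm_zero] at this
        exact norm_le_zero_iff.mp this
      · exact h1
    rcases h with h | h
    · exact h (Polynomial.ext (by simpa using hF0))
    · exact h (Polynomial.ext (by simpa using hG0))
  have hun : 0 < ‖u‖ := norm_pos_iff.mpr hu0
  have key : ∀ x : K, (x ∈ S ∨ x = 0) → ‖u⁻¹ * x‖ ≤ 1 := by
    intro x hx
    rw [norm_mul, norm_inv, inv_mul_le_iff₀ hun, mul_one]
    rcases hx with hx | rfl
    · exact hu x hx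
    · rw [norm_zero]; exact norm_nonneg _
  have hIF : Intg (C u⁻¹ * F) := fun n => by rw [coeff_C_mul]; exact key _ (hFS n)
  have hIG : Intg (C u⁻¹ * G) := fun n => by rw [coeff_C_mul]; exact key _ (hGS n)
  refine ⟨u⁻¹, inv_ne_zero hu0, hIF, hIG, ?_⟩
  rcases Finset.mem_union.mp huS with h1 | h1
  · left
    obtain ⟨n, -, hn⟩ := Finset.mem_image.mp h1
    intro h0
    have := (redP_eq_zero_iff hIF).mp h0 n
    rw [coeff_C_mul, hn, inv_mul_cancel₀ hu0, norm_one] at this
    exact lt_irrefl _ this
  · right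
    obtain ⟨n, -, hn⟩ := Finset.mem_image.mp h1
    intro h0
    have := (redP_eq_zero_iff hIG).mp h0 n
    rw [coeff_C_mul, hn, inv_mul_cancel₀ hu0, norm_one] at this
    exact lt_irrefl _ this

end PoolBerk
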