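import Pool.Agent.H.MP_db48a2_an.Bk.GnA

/-!
# Gauss valuations
-/

namespace PoolBerk

open Polynomial Metric

open scoped NNReal

variable {K : Type*} [NontriviallyNormedField K] [IsUltrametricDist K]

/-- `v` is the Gauss valuation of the closed ball `closedBall a r`. -/
def IsG (v : Valuation (RatFunc K) ℝ≥0) (a : K) (r : ℝ) : Prop :=
  ∀ z : K, ((v (RatFunc.X - algebraMap K (RatFunc K) z) : ℝ≥0) : ℝ) = max r ‖a - z‖

theorem ValA_prod {v : Valuation (RatFunc K) ℝ≥0} {a : K} {r : ℝ}
    (h : IsG v a r) (s : Multiset K) :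
    ((v (algebraMap K[X] (RatFunc K) (s.map fun z => X - C z).prod) : ℝ≥0) : ℝ) =
      (s.map (fun α => max r ‖a - α‖)).prod := by
  induction s using Multiset.induction_on with
  | empty => simp
  | cons z s ih =>
    rw [Multiset.map_cons, Multiset.prod_cons, Multiset.map_cons, Multiset.prod_cons, map_mul,
      map_mul, NNReal.coe_mul, ih]
    congr 1
    have e : algebraMap K[X] (RatFunc K) (X - C z) =
        RatFunc.X - algebraMap K (RatFunc K) z := by
      rw [map_sub, RatFunc.algebraMap_X, RatFunc.algebraMap_C]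
      rfl
    rw [e]
    exact h z

/-- The value of a Gauss valuation at a polynomial is the Gauss norm. -/
theorem IsG.apply [IsAlgClosed K] {v : Valuation (RatFunc K) ℝ≥0} (hv : HPt v) {a : K} {r : ℝ}
    (h : IsG v a r) (F : K[X]) :
    ((v (algebraMap K[X] (RatFunc K) F) : ℝ≥0) : ℝ) = gn F a r := by
  have h4 : F = C F.leadingCoeff * (F.roots.map fun a => X - C a).prod :=
    (IsAlgClosed.splits F).eq_prod_roots
  conv_lhs => rw [h4]
  rw [map_mul, map_mul, NNReal.coe_mul, ValA_prod h, gn]
  congr 1
  have e : algebraMap K[X] (RatFunc K) (C F.leadingCoeff) =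
      algebraMap K (RatFunc K) F.leadingCoeff := by
    rw [RatFunc.algebraMap_C]
    rfl
  rw [e, hv F.leadingCoeff]
  rfl

theorem ValA_rad {a a' : K} {r r' : ℝ} (hr : IsRad K r)
    (he : closedBall a r ⊆ closedBall a' r') : r ≤ r' := by
  obtain ⟨c, _, rfl⟩ := hr
  have h1 : a ∈ closedBall a' r' := he (mem_closedBall_self (norm_nonneg _))
  have h2 : a + c ∈ closedBall a' r' := by
    apply he
    rw [mem_closedBall_iff_norm, add_sub_cancel_left]
  rw [mem_closedBall_iff_norm] at h1 h2
  have e : c = (a + c - a') - (a - a') := by ring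
  rw [e, sub_eq_add_neg]
  refine (IsUltrametricDist.norm_add_le_max _ _).trans (max_le h2 ?_)
  rwa [norm_neg]

/-- A Gauss valuation is determined by its closed ball. -/
theorem IsG.unique [IsAlgClosed K] {v v' : Valuation (RatFunc K) ℝ≥0} (hv : HPt v) (hv' : HPt v')
    {a a' : K} {r r' : ℝ} (hr : IsRad K r) (hr' : IsRad K r') (h : IsG v a r) (h' : IsG v' a' r')
    (he : closedBall a r = closedBall a' r') : v = v' := by
  have h1 : r = r' := le_antisymm (ValA_rad hr he.subset) (ValA_rad hr' he.symm.subset)
  subst h1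
  have h2 : ‖a - a'‖ ≤ r := by
    have h3 : a ∈ closedBall a' r := by
      rw [← he]
      obtain ⟨c, _, rfl⟩ := hr
      exact mem_closedBall_self (norm_nonneg _)
    rwa [mem_closedBall_iff_norm] at h3
  have h3 : ∀ F : K[X], v (algebraMap K[X] (RatFunc K) F) = v' (algebraMap K[X] (RatFunc K) F) := by
    intro F
    apply NNReal.coe_injective
    rw [h.apply hv, h'.apply hv', gn_congr F h2]
  ext f
  rw [← RatFunc.num_div_denom f, map_div₀, map_div₀, h3, h3]

/-- If the local degree is at least two then the residue field is larger than the one of `K`: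
otherwise `imF σ v = ⊤` (it contains the residues of the constants, which are in the range of `σ`)
and the local degree would be one. -/
theorem exists_transc {σ : RatFunc K →ₐ[K] RatFunc K} {v : Valuation (RatFunc K) ℝ≥0}
    (hv : HPt v) (h : 2 ≤ locDeg σ v) :
    ∃ f : RatFunc K, v f = 1 ∧ ∀ e : K, ‖e‖ ≤ 1 → v (f - algebraMap K (RatFunc K) e) = 1 := by
  by_contra hc
  push Not at hc
  have htop : ∀ x : resF v, x ∈ imF σ v := by
    intro x
    obtain ⟨f, rfl⟩ := IsLocalRing.residue_surjective x
    have hf1 : v (f : RatFunc K) ≤ 1 := f.2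
    rcases hf1.lt_or_eq with hlt | heq
    · have h0 : IsLocalRing.residue v.valuationSubring f = 0 := by
        rw [IsLocalRing.residue_eq_zero_iff]
        rw [IsLocalRing.mem_maximalIdeal, mem_nonunits_iff]
        intro hu
        obtain ⟨g, hg⟩ := hu.exists_right_inv
        have h1 : v (f : RatFunc K) * v (g : RatFunc K) = 1 := by
          rw [← map_mul, ← map_one v]
          exact congrArg (fun t : v.valuationSubring => v (t : RatFunc K)) hg
        have h2 : v (g : RatFunc K) ≤ 1 := g.2
        have h3 : v (f : RatFunc K) * v (g : RatFunc K) < 1 :=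
          mul_lt_one_of_lt_of_le hlt h2
        rw [h1] at h3
        exact lt_irrefl _ h3
      rw [h0]
      exact zero_mem _
    · obtain ⟨e, he1, he2⟩ := hc f heq
      have hve : v (algebraMap K (RatFunc K) e) ≤ 1 := by
        rw [hv e]
        exact_mod_cast he1
      have h1 : v ((f : RatFunc K) - algebraMap K (RatFunc K) e) ≤ 1 :=
        (v.map_sub _ _).trans (max_le hf1 hve)
      have h2 := lt_of_le_of_ne h1 he2
      have h3 : IsLocalRing.residue v.valuationSubring f =
          IsLocalRing.residue v.valuationSubring ⟨algebraMap K (RatFunc K) e, hve⟩ := by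
        rw [← sub_eq_zero, ← map_sub, IsLocalRing.residue_eq_zero_iff,
          IsLocalRing.mem_maximalIdeal, mem_nonunits_iff]
        intro hu
        obtain ⟨g, hg⟩ := hu.exists_right_inv
        have h4 : v ((f : RatFunc K) - algebraMap K (RatFunc K) e) * v (g : RatFunc K) = 1 := by
          rw [← map_mul, ← map_one v]
          exact congrArg (fun t : v.valuationSubring => v (t : RatFunc K)) hg
        have h5 : v (g : RatFunc K) ≤ 1 := g.2
        have h6 := mul_lt_one_of_lt_of_le h2 h5
        rw [h4] at h6
        exact lt_irrefl _ h6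
      rw [h3]
      refine Subfield.subset_closure ?_
      exact ⟨⟨algebraMap K (RatFunc K) e, hve⟩, ⟨algebraMap K (RatFunc K) e, σ.commutes e⟩, rfl⟩
  have h1 : Module.finrank (imF σ v) (resF v) = 1 := by
    rw [finrank_eq_one_iff_of_nonzero' (1 : resF v) one_ne_zero]
    intro w
    exact ⟨⟨w, htop w⟩, by rw [Subfield.smul_def, smul_eq_mul, mul_one]⟩
  rw [locDeg, h1] at h
  omega

end PoolBerk
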