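import Pool.Agent.H.MP_db48a2_an.Bk.ValA
import Pool.Agent.H.MP_db48a2_an.Bk.GnB

/-!
# Fixed Gauss valuations
-/

namespace PoolBerk

open Polynomial Metric

open scoped NNReal

variable {K : Type*} [NontriviallyNormedField K] [IsUltrametricDist K]

variable {v : Valuation (RatFunc K) ℝ≥0} {σ : RatFunc K →ₐ[K] RatFunc K} {a c e : K}

/-- The coordinate of the ball. -/
noncomputable def tau (a c : K) : RatFunc K :=
  (RatFunc.X - algebraMap K (RatFunc K) a) / algebraMap K (RatFunc K) c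

/-- Substituting `tau` into `aff a c F` gives back `F`. -/
theorem aeval_tau_aff (hc : c ≠ 0) (F : K[X]) :
    aeval (tau a c) (aff a c F) = algebraMap K[X] (RatFunc K) F := by
  have hc' : algebraMap K (RatFunc K) c ≠ 0 := by
    rw [Ne, map_eq_zero_iff _ (algebraMap K (RatFunc K)).injective]
    exact hc
  have h1 : aeval (tau a c) (C a + C c * X) = (RatFunc.X : RatFunc K) := by
    rw [map_add, map_mul, aeval_C, aeval_C, aeval_X, tau]
    field_simp
    ring
  rw [aff, aeval_comp, h1, RatFunc.aeval_X_left_eq_algebraMap]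

/-- Gauss norm in the coordinate `tau`: integral polynomials have value at most one, exactly one if
the reduction is nonzero, less than one if the reduction vanishes.
(`v (tau - β) = max 1 ‖β‖`; for the middle statement use the factorisation of `redP_eq_prod`'s proof
or `gn_red`.) -/
theorem val_aeval [IsAlgClosed K] (hv : HPt v) (hc : c ≠ 0) (h : IsG v a ‖c‖) {G : K[X]}
    (hG : Intg G) :
    v (aeval (tau a c) G) ≤ 1 ∧ (redP G ≠ 0 → v (aeval (tau a c) G) = 1) ∧
      (redP G = 0 → v (aeval (tau a c) G) < 1) := by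
  rcases eq_or_ne G 0 with rfl | hG0
  · have h0 : redP (0 : K[X]) = 0 := by
      rw [redP_eq_zero_iff hG]
      intro n
      simp
    refine ⟨by simp, fun hne => absurd h0 hne, fun _ => by simp⟩
  -- G is the affine substitution of F
  set F : K[X] := G.comp (C (-a / c) + C (1 / c) * X) with hF
  have hFG : aff a c F = G := by
    rw [hF, aff, comp_assoc]
    have : (C (-a / c) + C (1 / c) * X : K[X]).comp (C a + C c * X) = X := by
      simp only [add_comp, mul_comp, C_comp, X_comp]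
      rw [mul_add, ← C_mul, ← mul_assoc, ← C_mul, ← add_assoc, ← C_add]
      have e1 : -a / c + 1 / c * a = 0 := by field_simp; ring
      have e2 : 1 / c * c = 1 := by field_simp
      rw [e1, e2]
      simp
    rw [this, comp_X]
  have hF0 : F ≠ 0 := by
    intro h0
    rw [h0] at hFG
    apply hG0
    rw [← hFG]
    simp [aff]
  have hval : ((v (aeval (tau a c) G) : ℝ≥0) : ℝ) = gn F a ‖c‖ := by
    have h1 : aeval (tau a c) G = algebraMap K[X] (RatFunc K) F := by
      rw [← hFG]; exact aeval_tau_aff hc F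
    rw [h1]; exact h.apply hv F
  obtain ⟨m, hm0, hm⟩ := gn_isRad hF0 a (⟨c, hc, rfl⟩ : IsRad K ‖c‖)
  have hmpos : 0 < ‖m‖ := norm_pos_iff.mpr hm0
  have hinv : ‖m⁻¹‖ * gn F a ‖c‖ = 1 := by
    rw [← hm, norm_inv]
    exact inv_mul_cancel₀ hmpos.ne'
  obtain ⟨hI, hR⟩ := gn_red hc hinv
  rw [hFG] at hI hR
  have hGm : C m * (C m⁻¹ * G) = G := by
    rw [← mul_assoc, ← C_mul, mul_inv_cancel₀ hm0, C_1, one_mul]
  have hm1 : ‖m‖ ≤ 1 := norm_le_one_of_intg_C_mul hI hR (by rw [hGm]; exact hG)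
  refine ⟨?_, ?_, ?_⟩
  · rw [← NNReal.coe_le_coe, hval, ← hm]
    exact_mod_cast hm1
  · intro hne
    have h2 : ‖m⁻¹‖ ≤ 1 := norm_le_one_of_intg_C_mul hG hne hI
    rw [norm_inv] at h2
    have h3 : 1 ≤ ‖m‖ := by
      rw [inv_le_one₀ hmpos] at h2
      exact h2
    rw [← NNReal.coe_inj, hval, ← hm]
    rw [NNReal.coe_one]
    exact le_antisymm hm1 h3
  · intro h0
    rw [← NNReal.coe_lt_coe, hval, ← hm, NNReal.coe_one]
    refine lt_of_le_of_ne hm1 fun h1 => hR ?_
    have h2 : ‖m⁻¹‖ ≤ 1 := by rw [norm_inv, h1, inv_one]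
    rw [redP_mul (Intg.const h2) hG, h0, mul_zero]

/-- The residue of the value at `tau` of an integral polynomial only depends on the reduction. -/
theorem val_aeval_sub [IsAlgClosed K] (hv : HPt v) (hc : c ≠ 0) (h : IsG v a ‖c‖) {G H : K[X]}
    (hG : Intg G) (hH : Intg H) (hred : redP G = redP H) :
    v (aeval (tau a c) G - aeval (tau a c) H) < 1 := by
  rw [← map_sub]
  refine (val_aeval hv hc h (hG.sub hH)).2.2 ?_
  rw [redP_sub hG hH, hred, sub_self]

/-- `σ (tau b c')` as a quotient: with `P / Q = σ X`,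
`σ (tau b c') * (C (e c') aff a c Q)(tau a c) = (C e aff a c (P - b Q))(tau a c)`. -/
theorem sigma_tau_gen {b c' : K} (hc : c ≠ 0) (hc' : c' ≠ 0) :
    σ (tau b c') * aeval (tau a c) (C (e * c') * aff a c (σ RatFunc.X).denom) =
      aeval (tau a c) (C e * aff a c ((σ RatFunc.X).num - C b * (σ RatFunc.X).denom)) := by
  have hc1 : algebraMap K (RatFunc K) c' ≠ 0 := by
    rw [Ne, map_eq_zero_iff _ (algebraMap K (RatFunc K)).injective]
    exact hc'
  have hQ : algebraMap K[X] (RatFunc K) (σ RatFunc.X).denom ≠ 0 :=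
    RatFunc.algebraMap_ne_zero (RatFunc.denom_ne_zero _)
  have hX : σ RatFunc.X = algebraMap K[X] (RatFunc K) (σ RatFunc.X).num
      / algebraMap K[X] (RatFunc K) (σ RatFunc.X).denom := (RatFunc.num_div_denom _).symm
  have hT : σ (tau b c') = (σ RatFunc.X - algebraMap K (RatFunc K) b)
      / algebraMap K (RatFunc K) c' := by
    rw [tau, map_div₀, map_sub, AlgHom.commutes, AlgHom.commutes]
  have hCb : algebraMap K[X] (RatFunc K) (C b) = algebraMap K (RatFunc K) b := rfl
  have hA1 : aeval (tau a c) (C (e * c') * aff a c (σ RatFunc.X).denom)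
      = algebraMap K (RatFunc K) e * algebraMap K (RatFunc K) c'
        * algebraMap K[X] (RatFunc K) (σ RatFunc.X).denom := by
    rw [map_mul (aeval (tau a c)), aeval_tau_aff hc, aeval_C, map_mul]
  have hA2 : aeval (tau a c) (C e * aff a c ((σ RatFunc.X).num - C b * (σ RatFunc.X).denom))
      = algebraMap K (RatFunc K) e * (algebraMap K[X] (RatFunc K) (σ RatFunc.X).num
        - algebraMap K (RatFunc K) b * algebraMap K[X] (RatFunc K) (σ RatFunc.X).denom) := by
    rw [map_mul (aeval (tau a c)), aeval_tau_aff hc, aeval_C, map_sub, map_mul, hCb]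
  rw [hA1, hA2, hT]
  have hPQ : algebraMap K[X] (RatFunc K) (σ RatFunc.X).num
      = σ RatFunc.X * algebraMap K[X] (RatFunc K) (σ RatFunc.X).denom :=
    (div_eq_iff hQ).mp hX.symm
  rw [hPQ]
  field_simp

/-- If `w = v ∘ σ` is a Gauss valuation too, the two reductions are nonzero and not proportional. -/
theorem lin_indep_gen [IsAlgClosed K] {w : Valuation (RatFunc K) ℝ≥0} {b c' : K} (hv : HPt v)
    (hc : c ≠ 0) (hc' : c' ≠ 0) (h : IsG v a ‖c‖) (h' : IsG w b ‖c'‖)
    (hvw : ∀ f, v (σ f) = w f)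
    (hP : Intg (C e * aff a c ((σ RatFunc.X).num - C b * (σ RatFunc.X).denom)))
    (hQ : Intg (C (e * c') * aff a c (σ RatFunc.X).denom))
    (hne : redP (C e * aff a c ((σ RatFunc.X).num - C b * (σ RatFunc.X).denom)) ≠ 0 ∨
      redP (C (e * c') * aff a c (σ RatFunc.X).denom) ≠ 0) :
    redP (C (e * c') * aff a c (σ RatFunc.X).denom) ≠ 0 ∧
    redP (C e * aff a c ((σ RatFunc.X).num - C b * (σ RatFunc.X).denom)) ≠ 0 ∧
    ∀ β : kK K, redP (C e * aff a c ((σ RatFunc.X).num - C b * (σ RatFunc.X).denom)) ≠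
      C β * redP (C (e * c') * aff a c (σ RatFunc.X).denom) := by
  have hT := sigma_tau_gen (σ := σ) (a := a) (c := c) (e := e) (b := b) (c' := c') hc hc'
  set Py : K[X] := C e * aff a c ((σ RatFunc.X).num - C b * (σ RatFunc.X).denom) with hPy
  set Qy : K[X] := C (e * c') * aff a c (σ RatFunc.X).denom with hQy
  have hc'pos : 0 < ‖c'‖ := norm_pos_iff.mpr hc'
  have hTβ : ∀ β : K, ‖β‖ ≤ 1 → v (σ (tau b c') - algebraMap K (RatFunc K) β) = 1 := by
    intro β hβ
    have hc1 : algebraMap K (RatFunc K) c' ≠ 0 := by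
      rw [Ne, map_eq_zero_iff _ (algebraMap K (RatFunc K)).injective]
      exact hc'
    have e1 : σ (tau b c') - algebraMap K (RatFunc K) β
        = σ (tau b c' - algebraMap K (RatFunc K) β) := by
      rw [map_sub, AlgHom.commutes]
    have e2 : tau b c' - algebraMap K (RatFunc K) β
        = (RatFunc.X - algebraMap K (RatFunc K) (b + c' * β)) / algebraMap K (RatFunc K) c' := by
      rw [tau, map_add, map_mul]
      field_simp
      ring
    rw [e1, hvw, e2, map_div₀]
    have e3 : w (algebraMap K (RatFunc K) c') = ‖c'‖₊ := by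
      rw [← hvw, AlgHom.commutes]
      exact hv c'
    have e4 : w (RatFunc.X - algebraMap K (RatFunc K) (b + c' * β)) = ‖c'‖₊ := by
      have h5 := h' (b + c' * β)
      have h6 : ‖b - (b + c' * β)‖ = ‖c'‖ * ‖β‖ := by
        rw [sub_add_cancel_left, norm_neg, norm_mul]
      rw [h6, max_eq_left (mul_le_of_le_one_right hc'pos.le hβ)] at h5
      rw [← NNReal.coe_inj, h5, coe_nnnorm]
    rw [e3, e4]
    exact div_self (by rw [Ne, nnnorm_eq_zero]; exact hc')
  have hvT : v (σ (tau b c')) = 1 := by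
    have := hTβ 0 (by simp)
    simpa using this
  have hPQ : v (aeval (tau a c) Py) = v (aeval (tau a c) Qy) := by
    rw [← hT, map_mul, hvT, one_mul]
  obtain ⟨_, hP2, hP3⟩ := val_aeval hv hc h hP
  obtain ⟨_, hQ2, hQ3⟩ := val_aeval hv hc h hQ
  have hboth : redP Qy ≠ 0 ∧ redP Py ≠ 0 := by
    rcases hne with h1 | h1
    · refine ⟨fun h0 => ?_, h1⟩
      have h2 := hQ3 h0
      rw [← hPQ, hP2 h1] at h2
      exact lt_irrefl _ h2
    · refine ⟨h1, fun h0 => ?_⟩
      have h2 := hP3 h0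
      rw [hPQ, hQ2 h1] at h2
      exact lt_irrefl _ h2
  refine ⟨hboth.1, hboth.2, fun l hl => ?_⟩
  obtain ⟨β, hβ, hβl⟩ := red_surj l
  have hI2 : Intg (C β * Qy) := (Intg.const hβ).mul hQ
  have hI : Intg (Py - C β * Qy) := hP.sub hI2
  have hred : redP (Py - C β * Qy) = 0 := by
    rw [redP_sub hP hI2, redP_mul (Intg.const hβ) hQ, redP_C, hβl, hl, sub_self]
  have h1 := (val_aeval hv hc h hI).2.2 hred
  have h2 : aeval (tau a c) (Py - C β * Qy)
      = (σ (tau b c') - algebraMap K (RatFunc K) β) * aeval (tau a c) Qy := by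
    rw [map_sub (aeval (tau a c)) Py (C β * Qy), map_mul (aeval (tau a c)) (C β) Qy, aeval_C, ← hT,
      sub_mul]
  rw [h2, map_mul, hTβ β hβ, hQ2 hboth.1, one_mul] at h1
  exact lt_irrefl _ h1

/-- `σ tau` as a quotient: with `P / Q = σ X`,
`σ tau * (C (e c) aff Q)(tau) = (C e aff (P - a Q))(tau)`. -/
theorem sigma_tau (hc : c ≠ 0) :
    σ (tau a c) * aeval (tau a c) (C (e * c) * aff a c (σ RatFunc.X).denom) =
      aeval (tau a c) (C e * aff a c ((σ RatFunc.X).num - C a * (σ RatFunc.X).denom)) :=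
  sigma_tau_gen hc hc

/-- At a fixed Gauss valuation the two reductions are not proportional. -/
theorem lin_indep_of_fixed [IsAlgClosed K] (hv : HPt v) (hc : c ≠ 0) (h : IsG v a ‖c‖)
    (hfix : ∀ f, v (σ f) = v f)
    (hP : Intg (C e * aff a c ((σ RatFunc.X).num - C a * (σ RatFunc.X).denom)))
    (hQ : Intg (C (e * c) * aff a c (σ RatFunc.X).denom))
    (hne : redP (C e * aff a c ((σ RatFunc.X).num - C a * (σ RatFunc.X).denom)) ≠ 0 ∨
      redP (C (e * c) * aff a c (σ RatFunc.X).denom) ≠ 0) :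
    redP (C (e * c) * aff a c (σ RatFunc.X).denom) ≠ 0 ∧
    ∀ β : kK K, redP (C e * aff a c ((σ RatFunc.X).num - C a * (σ RatFunc.X).denom)) ≠
      C β * redP (C (e * c) * aff a c (σ RatFunc.X).denom) := by
  obtain ⟨h1, _, h3⟩ := lin_indep_gen hv hc hc h h hfix hP hQ hne
  exact ⟨h1, h3⟩

end PoolBerk
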